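import Mathlib

/-!
A family of 20-dimensional 3-step nilpotent Lie algebras `G F c1 c2 c3`.
-/

namespace Pool.Agent.P.MP_b83182_al

/-- Indices of the standard basis. -/
inductive I
  | p | q | a | r | f | x1 | y1 | x2 | y2 | x3 | y3 | u1 | v1 | u2 | v2 | u3 | v3 | z1 | z2 | z3
  deriving DecidableEq

instance : Fintype I where
  elems := {.p, .q, .a, .r, .f, .x1, .y1, .x2, .y2, .x3, .y3, .u1, .v1, .u2, .v2, .u3, .v3, .z1, .z2, .z3}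
  complete k := by cases k <;> decide

lemma I.forall_iff {P : I → Prop} : (∀ k, P k) ↔
    P .p ∧ P .q ∧ P .a ∧ P .r ∧ P .f ∧ P .x1 ∧ P .y1 ∧ P .x2 ∧ P .y2 ∧ P .x3 ∧ P .y3 ∧ P .u1 ∧ P .v1 ∧ P .u2 ∧ P .v2 ∧ P .u3 ∧ P .v3 ∧ P .z1 ∧ P .z2 ∧ P .z3 := by
  constructor
  · intro h
    exact ⟨h _, h _, h _, h _, h _, h _, h _, h _, h _, h _, h _, h _, h _, h _, h _, h _, h _, h _, h _, h _⟩
  · rintro ⟨_, _, _, _, _, _, _, _, _, _, _, _, _, _, _, _, _, _, _, _⟩ k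
    cases k <;> assumption

lemma I.sum_eq {M : Type*} [AddCommMonoid M] (g : I → M) : ∑ k, g k =
    g .p + g .q + g .a + g .r + g .f + g .x1 + g .y1 + g .x2 + g .y2 + g .x3 + g .y3 + g .u1 + g .v1 + g .u2 + g .v2 + g .u3 + g .v3 + g .z1 + g .z2 + g .z3 := by
  have : (Finset.univ : Finset I) = {.p, .q, .a, .r, .f, .x1, .y1, .x2, .y2, .x3, .y3, .u1, .v1, .u2, .v2, .u3, .v3, .z1, .z2, .z3} := rfl
  rw [this]
  simp only [add_assoc]
  repeat rw [Finset.sum_insert (by decide)]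
  rw [Finset.sum_singleton]

/-- The underlying space. -/
def G (F : Type) (_c1 _c2 _c3 : F) : Type := I → F

section

variable {F : Type} [Field F] {c1 c2 c3 : F}

instance : AddCommGroup (G F c1 c2 c3) := inferInstanceAs (AddCommGroup (I → F))
instance : Module F (G F c1 c2 c3) := inferInstanceAs (Module F (I → F))
instance : FiniteDimensional F (G F c1 c2 c3) := inferInstanceAs (FiniteDimensional F (I → F))

/-- The bracket in coordinates. -/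
def br (c1 c2 c3 : F) (X Y : I → F) : I → F
  | .p => 0
  | .q => 0
  | .a => 0
  | .r => (X .p * Y .q - X .q * Y .p)
  | .f => (X .q * Y .a - X .a * Y .q)
  | .x1 => 0
  | .y1 => 0
  | .x2 => 0
  | .y2 => 0
  | .x3 => 0
  | .y3 => 0
  | .u1 => (X .q * Y .x1 - X .x1 * Y .q) - 2 * (X .p * Y .y1 - X .y1 * Y .p)
  | .v1 => (X .q * Y .y1 - X .y1 * Y .q) + (X .p * Y .x1 - X .x1 * Y .p) + 2 * (X .p * Y .y1 - X .y1 * Y .p)
  | .u2 => (X .q * Y .x2 - X .x2 * Y .q) + 17 * (X .p * Y .y2 - X .y2 * Y .p)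
  | .v2 => (X .q * Y .y2 - X .y2 * Y .q) + (X .p * Y .x2 - X .x2 * Y .p)
  | .u3 => (X .q * Y .x3 - X .x3 * Y .q) - 17 * (X .p * Y .y3 - X .y3 * Y .p)
  | .v3 => (X .q * Y .y3 - X .y3 * Y .q) + (X .p * Y .x3 - X .x3 * Y .p)
  | .z1 => (X .p * Y .r - X .r * Y .p) + c1 * (X .x1 * Y .y1 - X .y1 * Y .x1)
  | .z2 => (X .p * Y .a - X .a * Y .p) + c2 * (X .x2 * Y .y2 - X .y2 * Y .x2)
  | .z3 => (X .q * Y .f - X .f * Y .q) + c3 * (X .x3 * Y .y3 - X .y3 * Y .x3)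

instance : Bracket (G F c1 c2 c3) (G F c1 c2 c3) := ⟨br c1 c2 c3⟩

omit [Field F] in
@[ext] lemma G.ext {X Y : G F c1 c2 c3} (h : ∀ k, X k = Y k) : X = Y := funext h

@[simp] lemma G.add_apply (X Y : G F c1 c2 c3) (k : I) : (X + Y) k = X k + Y k := rfl
@[simp] lemma G.sub_apply (X Y : G F c1 c2 c3) (k : I) : (X - Y) k = X k - Y k := rfl
@[simp] lemma G.neg_apply (X : G F c1 c2 c3) (k : I) : (-X) k = -X k := rfl
@[simp] lemma G.zero_apply (k : I) : (0 : G F c1 c2 c3) k = 0 := rfl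
@[simp] lemma G.smul_apply (s : F) (X : G F c1 c2 c3) (k : I) : (s • X) k = s * X k := rfl

@[simp] lemma br_p (X Y : G F c1 c2 c3) : ⁅X, Y⁆ .p =
    0 := rfl
@[simp] lemma br_q (X Y : G F c1 c2 c3) : ⁅X, Y⁆ .q =
    0 := rfl
@[simp] lemma br_a (X Y : G F c1 c2 c3) : ⁅X, Y⁆ .a =
    0 := rfl
@[simp] lemma br_r (X Y : G F c1 c2 c3) : ⁅X, Y⁆ .r =
    (X .p * Y .q - X .q * Y .p) := rfl
@[simp] lemma br_f (X Y : G F c1 c2 c3) : ⁅X, Y⁆ .f =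
    (X .q * Y .a - X .a * Y .q) := rfl
@[simp] lemma br_x1 (X Y : G F c1 c2 c3) : ⁅X, Y⁆ .x1 =
    0 := rfl
@[simp] lemma br_y1 (X Y : G F c1 c2 c3) : ⁅X, Y⁆ .y1 =
    0 := rfl
@[simp] lemma br_x2 (X Y : G F c1 c2 c3) : ⁅X, Y⁆ .x2 =
    0 := rfl
@[simp] lemma br_y2 (X Y : G F c1 c2 c3) : ⁅X, Y⁆ .y2 =
    0 := rfl
@[simp] lemma br_x3 (X Y : G F c1 c2 c3) : ⁅X, Y⁆ .x3 =
    0 := rfl
@[simp] lemma br_y3 (X Y : G F c1 c2 c3) : ⁅X, Y⁆ .y3 =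
    0 := rfl
@[simp] lemma br_u1 (X Y : G F c1 c2 c3) : ⁅X, Y⁆ .u1 =
    (X .q * Y .x1 - X .x1 * Y .q) - 2 * (X .p * Y .y1 - X .y1 * Y .p) := rfl
@[simp] lemma br_v1 (X Y : G F c1 c2 c3) : ⁅X, Y⁆ .v1 =
    (X .q * Y .y1 - X .y1 * Y .q) + (X .p * Y .x1 - X .x1 * Y .p) + 2 * (X .p * Y .y1 - X .y1 * Y .p) := rfl
@[simp] lemma br_u2 (X Y : G F c1 c2 c3) : ⁅X, Y⁆ .u2 =
    (X .q * Y .x2 - X .x2 * Y .q) + 17 * (X .p * Y .y2 - X .y2 * Y .p) := rfl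
@[simp] lemma br_v2 (X Y : G F c1 c2 c3) : ⁅X, Y⁆ .v2 =
    (X .q * Y .y2 - X .y2 * Y .q) + (X .p * Y .x2 - X .x2 * Y .p) := rfl
@[simp] lemma br_u3 (X Y : G F c1 c2 c3) : ⁅X, Y⁆ .u3 =
    (X .q * Y .x3 - X .x3 * Y .q) - 17 * (X .p * Y .y3 - X .y3 * Y .p) := rfl
@[simp] lemma br_v3 (X Y : G F c1 c2 c3) : ⁅X, Y⁆ .v3 =
    (X .q * Y .y3 - X .y3 * Y .q) + (X .p * Y .x3 - X .x3 * Y .p) := rfl
@[simp] lemma br_z1 (X Y : G F c1 c2 c3) : ⁅X, Y⁆ .z1 =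
    (X .p * Y .r - X .r * Y .p) + c1 * (X .x1 * Y .y1 - X .y1 * Y .x1) := rfl
@[simp] lemma br_z2 (X Y : G F c1 c2 c3) : ⁅X, Y⁆ .z2 =
    (X .p * Y .a - X .a * Y .p) + c2 * (X .x2 * Y .y2 - X .y2 * Y .x2) := rfl
@[simp] lemma br_z3 (X Y : G F c1 c2 c3) : ⁅X, Y⁆ .z3 =
    (X .q * Y .f - X .f * Y .q) + c3 * (X .x3 * Y .y3 - X .y3 * Y .x3) := rfl

instance : LieRing (G F c1 c2 c3) where
  add_lie X Y Z := by ext k; cases k <;> simp <;> ring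
  lie_add X Y Z := by ext k; cases k <;> simp <;> ring
  lie_self X := by ext k; cases k <;> simp <;> ring
  leibniz_lie X Y Z := by ext k; cases k <;> simp <;> ring

instance : LieAlgebra F (G F c1 c2 c3) where
  lie_smul s X Y := by ext k; cases k <;> simp <;> ring

/-- Standard basis vectors. -/
def E (c1 c2 c3 : F) (j : I) : G F c1 c2 c3 := fun k => if k = j then 1 else 0

@[simp] lemma E_apply (j k : I) : E c1 c2 c3 j k = if k = j then 1 else 0 := rfl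

lemma G.sum_apply {ι : Type*} (s : Finset ι) (g : ι → G F c1 c2 c3) (k : I) :
    (∑ i ∈ s, g i) k = ∑ i ∈ s, g i k := Finset.sum_apply k s g

lemma sum_E (X : G F c1 c2 c3) : ∑ j, X j • E c1 c2 c3 j = X := by
  ext k
  rw [G.sum_apply, I.sum_eq]
  cases k <;> simp

/-- Coordinate subspaces. -/
def Co (c1 c2 c3 : F) (J : List I) : Submodule F (G F c1 c2 c3) where
  carrier := {X | ∀ k, k ∉ J → X k = 0}
  add_mem' := fun {X Y} hX hY k hk => by simp [hX k hk, hY k hk]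
  zero_mem' := fun _ _ => rfl
  smul_mem' := fun s X hX k hk => by simp [hX k hk]

lemma mem_Co {J : List I} {X : G F c1 c2 c3} : X ∈ Co c1 c2 c3 J ↔ ∀ k, k ∉ J → X k = 0 :=
  Iff.rfl

lemma E_mem_Co {J : List I} {j : I} (h : j ∈ J) : E c1 c2 c3 j ∈ Co c1 c2 c3 J := by
  intro k hk
  have : k ≠ j := fun e => hk (e ▸ h)
  simp [this]

lemma Co_le {J : List I} {S : Submodule F (G F c1 c2 c3)} (h : ∀ j ∈ J, E c1 c2 c3 j ∈ S) :
    Co c1 c2 c3 J ≤ S := by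
  intro X hX
  rw [← sum_E X]
  refine S.sum_mem fun j _ => ?_
  by_cases hj : j ∈ J
  · exact S.smul_mem _ (h j hj)
  · rw [hX j hj, zero_smul]
    exact S.zero_mem

lemma nilpotent_G : LieModule.lowerCentralSeries F (G F c1 c2 c3) (G F c1 c2 c3) 3 = ⊥ := by
  have step : ∀ (n : ℕ) (J J' : List I),
      (∀ Y ∈ LieModule.lowerCentralSeries F (G F c1 c2 c3) (G F c1 c2 c3) n, Y ∈ Co c1 c2 c3 J) →
      (∀ X Y : G F c1 c2 c3, Y ∈ Co c1 c2 c3 J → ⁅X, Y⁆ ∈ Co c1 c2 c3 J') →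
      ∀ Y ∈ LieModule.lowerCentralSeries F (G F c1 c2 c3) (G F c1 c2 c3) (n + 1),
        Y ∈ Co c1 c2 c3 J' := by
    intro n J J' h1 h2 Y hY
    rw [LieModule.lowerCentralSeries_succ, ← LieSubmodule.mem_toSubmodule,
      LieSubmodule.lieIdeal_oper_eq_linear_span'] at hY
    refine Submodule.span_le.2 ?_ hY
    rintro _ ⟨X, -, W, hW, rfl⟩
    exact h2 X W (h1 W hW)
  have h0 : ∀ Y ∈ LieModule.lowerCentralSeries F (G F c1 c2 c3) (G F c1 c2 c3) 0,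
      Y ∈ Co c1 c2 c3 [.p, .q, .a, .r, .f, .x1, .y1, .x2, .y2, .x3, .y3, .u1, .v1, .u2, .v2, .u3, .v3, .z1, .z2, .z3] := by
    intro Y _ k hk
    exact absurd (by cases k <;> decide) hk
  have h1 := step 0 _ [.r, .f, .u1, .v1, .u2, .v2, .u3, .v3, .z1, .z2, .z3] h0 (by
    intro X Y _
    simp [mem_Co, I.forall_iff])
  have h2 := step 1 _ [.z1, .z3] h1 (by
    intro X Y hY
    simp [mem_Co, I.forall_iff] at hY ⊢
    simp [hY])
  have h3 := step 2 _ [] h2 (by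
    intro X Y hY
    simp [mem_Co, I.forall_iff] at hY ⊢
    simp [hY])
  rw [eq_bot_iff]
  intro Y hY
  have : Y = 0 := G.ext fun k => h3 Y hY k (by simp)
  rw [this]
  exact LieSubmodule.zero_mem _

end

end Pool.Agent.P.MP_b83182_al
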