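import Mathlib
import Pool.Agent.P.MP_b83182_al.Alg

/-!
Subspaces of a Lie algebra obtained by linear constructions, and their values in `G`.
-/

set_option linter.unusedVariables false
set_option linter.unusedSimpArgs false
set_option linter.unreachableTactic false
set_option linter.unusedTactic false
set_option linter.unusedSectionVars false

namespace Pool.Agent.P.MP_b83182_al

/-- Recipes for canonical subspaces. -/
inductive Tm
  | top
  | bot
  | inf (a b : Tm)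
  | col (a b : Tm)
  | brk (a b : Tm)

section

variable (F : Type) [Field F] (L : Type) [LieRing L] [LieAlgebra F L]

/-- Elements whose bracket with `B` lies in `A`. -/
def colon (A B : Submodule F L) : Submodule F L where
  carrier := {x | ∀ y ∈ B, ⁅x, y⁆ ∈ A}
  add_mem' := fun {x x'} hx hx' y hy => by
    rw [add_lie]; exact A.add_mem (hx y hy) (hx' y hy)
  zero_mem' := fun y _ => by rw [zero_lie]; exact A.zero_mem
  smul_mem' := fun s x hx y hy => by rw [smul_lie]; exact A.smul_mem s (hx y hy)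

/-- The span of the brackets. -/
def brkS (A B : Submodule F L) : Submodule F L :=
  Submodule.span F {z | ∃ x ∈ A, ∃ y ∈ B, ⁅x, y⁆ = z}

/-- The subspace described by a recipe. -/
def Tm.eval : Tm → Submodule F L
  | .top => ⊤
  | .bot => ⊥
  | .inf a b => a.eval ⊓ b.eval
  | .col a b => colon F L a.eval b.eval
  | .brk a b => brkS F L a.eval b.eval

lemma eval_inf (a b : Tm) : (Tm.inf a b).eval F L = a.eval F L ⊓ b.eval F L := rfl
lemma eval_col (a b : Tm) : (Tm.col a b).eval F L = colon F L (a.eval F L) (b.eval F L) := rfl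
lemma eval_brk (a b : Tm) : (Tm.brk a b).eval F L = brkS F L (a.eval F L) (b.eval F L) := rfl

end

lemma Tm.nat {F : Type} [Field F] (t : Tm) : ∀ {L L' : Type} [LieRing L] [LieAlgebra F L]
    [LieRing L'] [LieAlgebra F L'] (φ : L ≃ₗ⁅F⁆ L') (x : L), x ∈ t.eval F L → φ x ∈ t.eval F L' := by
  induction t with
  | top => intro L L' _ _ _ _ φ x _; exact Submodule.mem_top
  | bot =>
    intro L L' _ _ _ _ φ x hx
    rw [Tm.eval, Submodule.mem_bot] at hx ⊢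
    rw [hx, map_zero]
  | inf a b iha ihb => intro L L' _ _ _ _ φ x hx; exact ⟨iha φ x hx.1, ihb φ x hx.2⟩
  | col a b iha ihb =>
    intro L L' _ _ _ _ φ x hx y hy
    have := iha φ _ (hx _ (ihb φ.symm y hy))
    rwa [LieEquiv.map_lie, LieEquiv.apply_symm_apply] at this
  | brk a b iha ihb =>
    intro L L' _ _ _ _ φ x hx
    induction hx using Submodule.span_induction with
    | mem z hz =>
      obtain ⟨x, hx, y, hy, rfl⟩ := hz
      exact Submodule.subset_span ⟨_, iha φ x hx, _, ihb φ y hy, (LieEquiv.map_lie φ x y).symm⟩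
    | zero => rw [map_zero]; exact Submodule.zero_mem _
    | add x y _ _ hx hy => rw [map_add]; exact Submodule.add_mem _ hx hy
    | smul s x _ hx => rw [map_smul]; exact Submodule.smul_mem _ _ hx

section

variable {F : Type} [Field F] [CharZero F] {c1 c2 c3 : F}

lemma mem_colon_Co {A : Submodule F (G F c1 c2 c3)} {J : List I} {X : G F c1 c2 c3} :
    X ∈ colon F _ A (Co c1 c2 c3 J) ↔ ∀ j, j ∈ J → ⁅X, E c1 c2 c3 j⁆ ∈ A := by
  constructor
  · exact fun h j hj => h _ (E_mem_Co hj)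
  · intro h Y hY
    have : Co c1 c2 c3 J ≤ A.comap (LieAlgebra.ad F _ X) := Co_le fun j hj => h j hj
    exact this hY

lemma brkS_eq_Co {J1 J2 J : List I}
    (h1 : ∀ X ∈ Co c1 c2 c3 J1, ∀ Y ∈ Co c1 c2 c3 J2, ⁅X, Y⁆ ∈ Co c1 c2 c3 J)
    (h2 : ∀ j, j ∈ J → ∃ i1 ∈ J1, ∃ i2 ∈ J2, ∃ s : F, s ≠ 0 ∧
      ⁅E c1 c2 c3 i1, E c1 c2 c3 i2⁆ = s • E c1 c2 c3 j) :
    brkS F _ (Co c1 c2 c3 J1) (Co c1 c2 c3 J2) = Co c1 c2 c3 J := by
  apply le_antisymm
  · refine Submodule.span_le.2 ?_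
    rintro _ ⟨X, hX, Y, hY, rfl⟩
    exact h1 X hX Y hY
  · refine Co_le fun j hj => ?_
    obtain ⟨i1, a1, i2, a2, s, hs, h⟩ := h2 j hj
    have : ⁅E c1 c2 c3 i1, E c1 c2 c3 i2⁆ ∈ brkS F _ (Co c1 c2 c3 J1) (Co c1 c2 c3 J2) :=
      Submodule.subset_span ⟨_, E_mem_Co a1, _, E_mem_Co a2, rfl⟩
    rw [h] at this
    exact (Submodule.smul_mem_iff _ hs).1 this

lemma ev_top : Tm.top.eval F (G F c1 c2 c3) = Co c1 c2 c3 [.p, .q, .a, .r, .f, .x1, .y1, .x2, .y2, .x3, .y3, .u1, .v1, .u2, .v2, .u3, .v3, .z1, .z2, .z3] := by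
  refine (eq_top_iff.2 fun X _ k hk => ?_).symm
  exact absurd (by cases k <;> decide) hk

lemma ev_bot : Tm.bot.eval F (G F c1 c2 c3) = Co c1 c2 c3 [] := by
  refine (eq_bot_iff.2 fun X hX => ?_).symm
  exact G.ext fun k => hX k (by simp)

/-- A recipe. -/
def tN2 : Tm := .brk Tm.top Tm.top

lemma ev_N2 (h1 : c1 ≠ 0) (h2 : c2 ≠ 0) (h3 : c3 ≠ 0) :
    tN2.eval F (G F c1 c2 c3) = Co c1 c2 c3 [.r, .f, .u1, .v1, .u2, .v2, .u3, .v3, .z1, .z2, .z3] := by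
  rw [tN2]
  simp only [eval_inf, eval_col, eval_brk]
  rw [ev_top]
  refine brkS_eq_Co (fun X hX Y hY => ?_) ?_
  · simp [mem_Co, I.forall_iff] at hX hY ⊢
    try simp [hX, hY]
  · intro j hj
    simp only [List.mem_cons, List.not_mem_nil, or_false] at hj
    rcases hj with rfl | rfl | rfl | rfl | rfl | rfl | rfl | rfl | rfl | rfl | rfl
    · exact ⟨.p, by decide, .q, by decide, 1, one_ne_zero, by ext k; cases k <;> simp⟩
    · exact ⟨.q, by decide, .a, by decide, 1, one_ne_zero, by ext k; cases k <;> simp⟩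
    · exact ⟨.q, by decide, .x1, by decide, 1, one_ne_zero, by ext k; cases k <;> simp⟩
    · exact ⟨.q, by decide, .y1, by decide, 1, one_ne_zero, by ext k; cases k <;> simp⟩
    · exact ⟨.q, by decide, .x2, by decide, 1, one_ne_zero, by ext k; cases k <;> simp⟩
    · exact ⟨.q, by decide, .y2, by decide, 1, one_ne_zero, by ext k; cases k <;> simp⟩
    · exact ⟨.q, by decide, .x3, by decide, 1, one_ne_zero, by ext k; cases k <;> simp⟩
    · exact ⟨.q, by decide, .y3, by decide, 1, one_ne_zero, by ext k; cases k <;> simp⟩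
    · exact ⟨.p, by decide, .r, by decide, 1, one_ne_zero, by ext k; cases k <;> simp⟩
    · exact ⟨.p, by decide, .a, by decide, 1, one_ne_zero, by ext k; cases k <;> simp⟩
    · exact ⟨.q, by decide, .f, by decide, 1, one_ne_zero, by ext k; cases k <;> simp⟩

/-- A recipe. -/
def tZc : Tm := (.col Tm.bot Tm.top)

lemma ev_Zc (h1 : c1 ≠ 0) (h2 : c2 ≠ 0) (h3 : c3 ≠ 0) :
    tZc.eval F (G F c1 c2 c3) = Co c1 c2 c3 [.u1, .v1, .u2, .v2, .u3, .v3, .z1, .z2, .z3] := by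
  rw [tZc]
  simp only [eval_inf, eval_col, eval_brk]
  rw [ev_bot, ev_top]
  ext X
  simp only [Submodule.mem_inf, mem_colon_Co, mem_Co, I.forall_iff]
  simp [h1, h2, h3]
  try (first | (constructor <;> intro h <;> simp_all) | tauto)

/-- A recipe. -/
def tZ2 : Tm := (.col tZc Tm.top)

lemma ev_Z2 (h1 : c1 ≠ 0) (h2 : c2 ≠ 0) (h3 : c3 ≠ 0) :
    tZ2.eval F (G F c1 c2 c3) = Co c1 c2 c3 [.r, .f, .x1, .y1, .x2, .y2, .x3, .y3, .u1, .v1, .u2, .v2, .u3, .v3, .z1, .z2, .z3] := by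
  rw [tZ2]
  simp only [eval_inf, eval_col, eval_brk]
  rw [ev_Zc h1 h2 h3, ev_top]
  ext X
  simp only [Submodule.mem_inf, mem_colon_Co, mem_Co, I.forall_iff]
  simp [h1, h2, h3]
  try (first | (constructor <;> intro h <;> simp_all) | tauto)

/-- A recipe. -/
def tA0 : Tm := (.col Tm.bot tN2)

lemma ev_A0 (h1 : c1 ≠ 0) (h2 : c2 ≠ 0) (h3 : c3 ≠ 0) :
    tA0.eval F (G F c1 c2 c3) = Co c1 c2 c3 [.a, .r, .f, .x1, .y1, .x2, .y2, .x3, .y3, .u1, .v1, .u2, .v2, .u3, .v3, .z1, .z2, .z3] := by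
  rw [tA0]
  simp only [eval_inf, eval_col, eval_brk]
  rw [ev_bot, ev_N2 h1 h2 h3]
  ext X
  simp only [Submodule.mem_inf, mem_colon_Co, mem_Co, I.forall_iff]
  simp [h1, h2, h3]
  try (first | (constructor <;> intro h <;> simp_all) | tauto)

/-- A recipe. -/
def tP0 : Tm := (.col tZc tA0)

lemma ev_P0 (h1 : c1 ≠ 0) (h2 : c2 ≠ 0) (h3 : c3 ≠ 0) :
    tP0.eval F (G F c1 c2 c3) = Co c1 c2 c3 [.p, .a, .r, .f, .x1, .y1, .x2, .y2, .x3, .y3, .u1, .v1, .u2, .v2, .u3, .v3, .z1, .z2, .z3] := by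
  rw [tP0]
  simp only [eval_inf, eval_col, eval_brk]
  rw [ev_Zc h1 h2 h3, ev_A0 h1 h2 h3]
  ext X
  simp only [Submodule.mem_inf, mem_colon_Co, mem_Co, I.forall_iff]
  simp [h1, h2, h3]
  try (first | (constructor <;> intro h <;> simp_all) | tauto)

/-- A recipe. -/
def tz1 : Tm := .brk tP0 tN2

lemma ev_z1 (h1 : c1 ≠ 0) (h2 : c2 ≠ 0) (h3 : c3 ≠ 0) :
    tz1.eval F (G F c1 c2 c3) = Co c1 c2 c3 [.z1] := by
  rw [tz1]
  simp only [eval_inf, eval_col, eval_brk]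
  rw [ev_P0 h1 h2 h3, ev_N2 h1 h2 h3]
  refine brkS_eq_Co (fun X hX Y hY => ?_) ?_
  · simp [mem_Co, I.forall_iff] at hX hY ⊢
    try simp [hX, hY]
  · intro j hj
    simp only [List.mem_cons, List.not_mem_nil, or_false] at hj
    subst hj
    · exact ⟨.p, by decide, .r, by decide, 1, one_ne_zero, by ext k; cases k <;> simp⟩

/-- A recipe. -/
def tF0 : Tm := .inf tN2 (.col Tm.bot tP0)

lemma ev_F0 (h1 : c1 ≠ 0) (h2 : c2 ≠ 0) (h3 : c3 ≠ 0) :
    tF0.eval F (G F c1 c2 c3) = Co c1 c2 c3 [.f, .u1, .v1, .u2, .v2, .u3, .v3, .z1, .z2, .z3] := by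
  rw [tF0]
  simp only [eval_inf, eval_col, eval_brk]
  rw [ev_N2 h1 h2 h3, ev_bot, ev_P0 h1 h2 h3]
  ext X
  simp only [Submodule.mem_inf, mem_colon_Co, mem_Co, I.forall_iff]
  simp [h1, h2, h3]
  try (first | (constructor <;> intro h <;> simp_all) | tauto)

/-- A recipe. -/
def tz3 : Tm := .brk Tm.top tF0

lemma ev_z3 (h1 : c1 ≠ 0) (h2 : c2 ≠ 0) (h3 : c3 ≠ 0) :
    tz3.eval F (G F c1 c2 c3) = Co c1 c2 c3 [.z3] := by
  rw [tz3]
  simp only [eval_inf, eval_col, eval_brk]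
  rw [ev_top, ev_F0 h1 h2 h3]
  refine brkS_eq_Co (fun X hX Y hY => ?_) ?_
  · simp [mem_Co, I.forall_iff] at hX hY ⊢
    try simp [hX, hY]
  · intro j hj
    simp only [List.mem_cons, List.not_mem_nil, or_false] at hj
    subst hj
    · exact ⟨.q, by decide, .f, by decide, 1, one_ne_zero, by ext k; cases k <;> simp⟩

/-- A recipe. -/
def tQ : Tm := (.col tz3 tN2)

lemma ev_Q (h1 : c1 ≠ 0) (h2 : c2 ≠ 0) (h3 : c3 ≠ 0) :
    tQ.eval F (G F c1 c2 c3) = Co c1 c2 c3 [.q, .a, .r, .f, .x1, .y1, .x2, .y2, .x3, .y3, .u1, .v1, .u2, .v2, .u3, .v3, .z1, .z2, .z3] := by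
  rw [tQ]
  simp only [eval_inf, eval_col, eval_brk]
  rw [ev_z3 h1 h2 h3, ev_N2 h1 h2 h3]
  ext X
  simp only [Submodule.mem_inf, mem_colon_Co, mem_Co, I.forall_iff]
  simp [h1, h2, h3]
  try (first | (constructor <;> intro h <;> simp_all) | tauto)

/-- A recipe. -/
def tR : Tm := .inf tN2 (.col Tm.bot tQ)

lemma ev_R (h1 : c1 ≠ 0) (h2 : c2 ≠ 0) (h3 : c3 ≠ 0) :
    tR.eval F (G F c1 c2 c3) = Co c1 c2 c3 [.r, .u1, .v1, .u2, .v2, .u3, .v3, .z1, .z2, .z3] := by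
  rw [tR]
  simp only [eval_inf, eval_col, eval_brk]
  rw [ev_N2 h1 h2 h3, ev_bot, ev_Q h1 h2 h3]
  ext X
  simp only [Submodule.mem_inf, mem_colon_Co, mem_Co, I.forall_iff]
  simp [h1, h2, h3]
  try (first | (constructor <;> intro h <;> simp_all) | tauto)

/-- A recipe. -/
def tP : Tm := .inf tP0 (.col tR tQ)

lemma ev_P (h1 : c1 ≠ 0) (h2 : c2 ≠ 0) (h3 : c3 ≠ 0) :
    tP.eval F (G F c1 c2 c3) = Co c1 c2 c3 [.p, .r, .f, .x1, .y1, .x2, .y2, .x3, .y3, .u1, .v1, .u2, .v2, .u3, .v3, .z1, .z2, .z3] := by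
  rw [tP]
  simp only [eval_inf, eval_col, eval_brk]
  rw [ev_P0 h1 h2 h3, ev_R h1 h2 h3, ev_Q h1 h2 h3]
  ext X
  simp only [Submodule.mem_inf, mem_colon_Co, mem_Co, I.forall_iff]
  simp [h1, h2, h3]
  try (first | (constructor <;> intro h <;> simp_all) | tauto)

/-- A recipe. -/
def tW1 : Tm := .inf tZ2 (.col tz1 tZ2)

lemma ev_W1 (h1 : c1 ≠ 0) (h2 : c2 ≠ 0) (h3 : c3 ≠ 0) :
    tW1.eval F (G F c1 c2 c3) = Co c1 c2 c3 [.r, .f, .x1, .y1, .u1, .v1, .u2, .v2, .u3, .v3, .z1, .z2, .z3] := by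
  rw [tW1]
  simp only [eval_inf, eval_col, eval_brk]
  rw [ev_Z2 h1 h2 h3, ev_z1 h1 h2 h3]
  ext X
  simp only [Submodule.mem_inf, mem_colon_Co, mem_Co, I.forall_iff]
  simp [h1, h2, h3]
  try (first | (constructor <;> intro h <;> simp_all) | tauto)

/-- A recipe. -/
def tW3 : Tm := .inf tZ2 (.col tz3 tZ2)

lemma ev_W3 (h1 : c1 ≠ 0) (h2 : c2 ≠ 0) (h3 : c3 ≠ 0) :
    tW3.eval F (G F c1 c2 c3) = Co c1 c2 c3 [.r, .f, .x3, .y3, .u1, .v1, .u2, .v2, .u3, .v3, .z1, .z2, .z3] := by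
  rw [tW3]
  simp only [eval_inf, eval_col, eval_brk]
  rw [ev_Z2 h1 h2 h3, ev_z3 h1 h2 h3]
  ext X
  simp only [Submodule.mem_inf, mem_colon_Co, mem_Co, I.forall_iff]
  simp [h1, h2, h3]
  try (first | (constructor <;> intro h <;> simp_all) | tauto)

/-- A recipe. -/
def tW2 : Tm := .inf tZ2 (.inf (.col Tm.bot tW1) (.col Tm.bot tW3))

lemma ev_W2 (h1 : c1 ≠ 0) (h2 : c2 ≠ 0) (h3 : c3 ≠ 0) :
    tW2.eval F (G F c1 c2 c3) = Co c1 c2 c3 [.r, .f, .x2, .y2, .u1, .v1, .u2, .v2, .u3, .v3, .z1, .z2, .z3] := by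
  rw [tW2]
  simp only [eval_inf, eval_col, eval_brk]
  rw [ev_Z2 h1 h2 h3, ev_bot, ev_W1 h1 h2 h3, ev_W3 h1 h2 h3]
  ext X
  simp only [Submodule.mem_inf, mem_colon_Co, mem_Co, I.forall_iff]
  simp [h1, h2, h3]
  try (first | (constructor <;> intro h <;> simp_all) | tauto)

/-- A recipe. -/
def tz2 : Tm := .brk tW2 tW2

lemma ev_z2 (h1 : c1 ≠ 0) (h2 : c2 ≠ 0) (h3 : c3 ≠ 0) :
    tz2.eval F (G F c1 c2 c3) = Co c1 c2 c3 [.z2] := by
  rw [tz2]
  simp only [eval_inf, eval_col, eval_brk]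
  rw [ev_W2 h1 h2 h3]
  refine brkS_eq_Co (fun X hX Y hY => ?_) ?_
  · simp [mem_Co, I.forall_iff] at hX hY ⊢
    try simp [hX, hY]
  · intro j hj
    simp only [List.mem_cons, List.not_mem_nil, or_false] at hj
    subst hj
    · exact ⟨.x2, by decide, .y2, by decide, c2, h2, by ext k; cases k <;> simp⟩

/-- A recipe. -/
def tA : Tm := .inf tA0 (.col tz2 tP)

lemma ev_A (h1 : c1 ≠ 0) (h2 : c2 ≠ 0) (h3 : c3 ≠ 0) :
    tA.eval F (G F c1 c2 c3) = Co c1 c2 c3 [.a, .f, .u1, .v1, .u2, .v2, .u3, .v3, .z1, .z2, .z3] := by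
  rw [tA]
  simp only [eval_inf, eval_col, eval_brk]
  rw [ev_A0 h1 h2 h3, ev_z2 h1 h2 h3, ev_P h1 h2 h3]
  ext X
  simp only [Submodule.mem_inf, mem_colon_Co, mem_Co, I.forall_iff]
  simp [h1, h2, h3]
  try (first | (constructor <;> intro h <;> simp_all) | tauto)

end

end Pool.Agent.P.MP_b83182_al
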