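import Mathlib
import Pool.Agent.P.MP_b83182_al.Canon

/-!
Rational forms of a real Lie algebra: projections to the form, and rational subspaces.
-/

open scoped TensorProduct

namespace Pool.Agent.P.MP_b83182_al

variable {L N : Type} [LieRing L] [LieAlgebra ℝ L] [LieRing N] [LieAlgebra ℚ N]
  (e : L ≃ₗ⁅ℝ⁆ ℝ ⊗[ℚ] N)

/-- The embedding of the form. -/
noncomputable def io : N →+ L where
  toFun x := e.symm ((1 : ℝ) ⊗ₜ[ℚ] x)
  map_zero' := by simp
  map_add' x y := by simp [TensorProduct.tmul_add]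

lemma io_apply (x : N) : io e x = e.symm ((1 : ℝ) ⊗ₜ[ℚ] x) := rfl

lemma smul_io (r : ℝ) (x : N) : r • io e x = e.symm (r ⊗ₜ[ℚ] x) := by
  rw [io_apply, ← map_smul, TensorProduct.smul_tmul', smul_eq_mul, mul_one]

lemma io_smul (s : ℚ) (x : N) : io e (s • x) = (s : ℝ) • io e x := by
  rw [smul_io, io_apply, ← TensorProduct.smul_tmul]
  simp

lemma io_lie (x y : N) : io e ⁅x, y⁆ = ⁅io e x, io e y⁆ := by
  simp only [io_apply]
  rw [← LieEquiv.map_lie, LieAlgebra.ExtendScalars.bracket_tmul, mul_one]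

/-- The projection to the form attached to a rational functional on the reals. -/
noncomputable def pr (π : ℝ →ₗ[ℚ] ℚ) : L →+ N where
  toFun y := TensorProduct.lid ℚ N (TensorProduct.map π LinearMap.id (e y))
  map_zero' := by simp
  map_add' x y := by simp

lemma pr_smul_io (π : ℝ →ₗ[ℚ] ℚ) (r : ℝ) (x : N) : pr e π (r • io e x) = π r • x := by
  rw [smul_io]
  simp [pr]

lemma pr_io {π : ℝ →ₗ[ℚ] ℚ} (h : π 1 = 1) (x : N) : pr e π (io e x) = x := by
  have := pr_smul_io e π 1 x
  rwa [one_smul, h, one_smul] at this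

lemma form_induction {P : L → Prop} (h0 : P 0) (h1 : ∀ (r : ℝ) (x : N), P (r • io e x))
    (h2 : ∀ x y, P x → P y → P (x + y)) (y : L) : P y := by
  obtain ⟨z, rfl⟩ := e.symm.surjective y
  induction z using TensorProduct.induction_on with
  | zero => rw [map_zero]; exact h0
  | tmul r x => have := h1 r x; rwa [smul_io] at this
  | add x y hx hy => rw [map_add]; exact h2 _ _ hx hy

lemma pr_lie (π : ℝ →ₗ[ℚ] ℚ) (x : N) (y : L) : pr e π ⁅io e x, y⁆ = ⁅x, pr e π y⁆ := by
  induction y using form_induction e with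
  | h0 => simp
  | h1 r y => rw [lie_smul, ← io_lie, pr_smul_io, pr_smul_io, lie_smul]
  | h2 y z hy hz => rw [lie_add, map_add, map_add, lie_add, hy, hz]

lemma pr_lie' (π : ℝ →ₗ[ℚ] ℚ) (x : N) (y : L) : pr e π ⁅y, io e x⁆ = ⁅pr e π y, x⁆ := by
  rw [← lie_skew, map_neg, pr_lie, lie_skew]

lemma pr_rat_smul (π : ℝ →ₗ[ℚ] ℚ) (s : ℚ) (y : L) : pr e π ((s : ℝ) • y) = s • pr e π y := by
  induction y using form_induction e with
  | h0 => simp
  | h1 r y =>
    rw [smul_smul, pr_smul_io, pr_smul_io, smul_smul, ← smul_eq_mul s (π r), ← map_smul]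
    simp [Rat.smul_def]
  | h2 y z hy hz => rw [smul_add, map_add, map_add, smul_add, hy, hz]

lemma exists_retraction : ∃ π : ℝ →ₗ[ℚ] ℚ, π 1 = 1 := by
  obtain ⟨π, h⟩ := (Algebra.linearMap ℚ ℝ).exists_leftInverse_of_injective
    (LinearMap.ker_eq_bot.2 (algebraMap ℚ ℝ).injective)
  refine ⟨π, ?_⟩
  simpa using LinearMap.congr_fun h 1

lemma io_injective : Function.Injective (io e) := by
  obtain ⟨π, h⟩ := exists_retraction
  intro x y hxy
  rw [← pr_io e h x, hxy, pr_io e h]

lemma mem_span_pr (y : L) :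
    y ∈ Submodule.span ℝ (Set.range fun π : ℝ →ₗ[ℚ] ℚ => io e (pr e π y)) := by
  classical
  let b := Module.Basis.ofVectorSpace ℚ ℝ
  obtain ⟨c, hc⟩ := TensorProduct.eq_repr_basis_left b (e y)
  have hy : y = ∑ i ∈ c.support, b i • io e (c i) := by
    simp only [smul_io]
    rw [← map_sum, ← e.symm_apply_apply y, ← hc]
    rfl
  have hP : ∀ i ∈ c.support, pr e (b.coord i) y = c i := by
    intro i hi
    rw [hy, map_sum]
    simp only [pr_smul_io, Module.Basis.coord_apply, Module.Basis.repr_self, Finsupp.single_apply]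
    rw [Finset.sum_eq_single i]
    · simp
    · intro j _ hj
      simp [hj]
    · intro h; exact absurd hi h
  have : ∑ i ∈ c.support, b i • io e (c i) ∈
      Submodule.span ℝ (Set.range fun π : ℝ →ₗ[ℚ] ℚ => io e (pr e π y)) :=
    Submodule.sum_mem _ fun i hi => Submodule.smul_mem _ _
      (Submodule.subset_span ⟨b.coord i, by simp only [hP i hi]⟩)
  rwa [← hy] at this

/-- A real subspace is rational if the projections preserve it. -/
def IsRat (S : Submodule ℝ L) : Prop := ∀ (π : ℝ →ₗ[ℚ] ℚ) (y : L), y ∈ S → io e (pr e π y) ∈ S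

variable {e}

lemma IsRat.induction {S : Submodule ℝ L} (hS : IsRat e S) {T : Submodule ℝ L}
    (h : ∀ x, io e x ∈ S → io e x ∈ T) : S ≤ T := by
  intro y hy
  refine Submodule.span_le.2 ?_ (mem_span_pr e y)
  rintro _ ⟨π, rfl⟩
  exact h _ (hS π y hy)

lemma IsRat.exists_ne {S : Submodule ℝ L} (hS : IsRat e S) (l : L →ₗ[ℝ] ℝ) {y : L} (hy : y ∈ S)
    (hl : l y ≠ 0) : ∃ x, io e x ∈ S ∧ l (io e x) ≠ 0 := by
  by_contra h
  push Not at h
  exact hl (hS.induction (T := LinearMap.ker l) h hy)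

lemma isRat_span {s : Set N} : IsRat e (Submodule.span ℝ (io e '' s)) := by
  intro π y hy
  have : ∀ r : ℝ, io e (pr e π (r • y)) ∈ Submodule.span ℝ (io e '' s) := by
    induction hy using Submodule.span_induction with
    | mem z hz =>
      obtain ⟨x, hx, rfl⟩ := hz
      intro r
      rw [pr_smul_io, io_smul]
      exact Submodule.smul_mem _ _ (Submodule.subset_span ⟨x, hx, rfl⟩)
    | zero => intro r; simp
    | add x y _ _ hx hy =>
      intro r
      rw [smul_add, map_add, map_add]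
      exact Submodule.add_mem _ (hx r) (hy r)
    | smul t x _ hx =>
      intro r
      rw [smul_smul]
      exact hx _
  simpa using this 1

lemma Tm.isRat (e : L ≃ₗ⁅ℝ⁆ ℝ ⊗[ℚ] N) (t : Tm) : IsRat e (t.eval ℝ L) := by
  induction t with
  | top => exact fun _ _ _ => Submodule.mem_top
  | bot =>
    intro π y hy
    rw [Tm.eval, Submodule.mem_bot] at hy ⊢
    simp [hy]
  | inf a b iha ihb => exact fun π y hy => ⟨iha π y hy.1, ihb π y hy.2⟩
  | col a b iha ihb =>
    intro π y hy
    have : b.eval ℝ L ≤ (a.eval ℝ L).comap (LieAlgebra.ad ℝ L (io e (pr e π y))) := by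
      refine ihb.induction fun x hx => ?_
      have := iha π _ (hy _ hx)
      rw [pr_lie', io_lie] at this
      exact this
    exact fun z hz => this hz
  | brk a b iha ihb =>
    have : brkS ℝ L (a.eval ℝ L) (b.eval ℝ L) = Submodule.span ℝ
        (io e '' {z | ∃ x, io e x ∈ a.eval ℝ L ∧ ∃ y, io e y ∈ b.eval ℝ L ∧ ⁅x, y⁆ = z}) := by
      apply le_antisymm
      · refine Submodule.span_le.2 ?_
        rintro _ ⟨x, hx, y, hy, rfl⟩
        have h1 : a.eval ℝ L ≤ colon ℝ L (Submodule.span ℝ (io e ''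
            {z | ∃ x, io e x ∈ a.eval ℝ L ∧ ∃ y, io e y ∈ b.eval ℝ L ∧ ⁅x, y⁆ = z}))
            (b.eval ℝ L) := by
          refine iha.induction fun x hx => ?_
          have : b.eval ℝ L ≤ (Submodule.span ℝ (io e ''
            {z | ∃ x, io e x ∈ a.eval ℝ L ∧ ∃ y, io e y ∈ b.eval ℝ L ∧ ⁅x, y⁆ = z})).comap
              (LieAlgebra.ad ℝ L (io e x)) := by
            refine ihb.induction fun y hy => ?_
            exact Submodule.subset_span ⟨_, ⟨x, hx, y, hy, rfl⟩, io_lie e x y⟩
          exact fun z hz => this hz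
        exact h1 hx y hy
      · refine Submodule.span_le.2 ?_
        rintro _ ⟨_, ⟨x, hx, y, hy, rfl⟩, rfl⟩
        exact Submodule.subset_span ⟨_, hx, _, hy, (io_lie e x y).symm⟩
    rw [eval_brk, this]
    exact isRat_span

lemma rat_of_smul {x y : N} {r : ℝ} (h : io e x = r • io e y) (hy : io e y ≠ 0) :
    ∃ s : ℚ, (s : ℝ) = r := by
  obtain ⟨π, hπ⟩ := exists_retraction
  have h1 : x = π r • y := by rw [← pr_io e hπ x, h, pr_smul_io]
  rw [h1, io_smul] at h
  exact ⟨π r, smul_left_injective ℝ hy h⟩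

end Pool.Agent.P.MP_b83182_al
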