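import Mathlib
import Pool.Agent.P.MP_b83182_al.Canon

/-!
Generators satisfying the defining relations give an isomorphism.
-/

set_option linter.unusedSimpArgs false
set_option linter.unreachableTactic false
set_option linter.unusedTactic false
set_option linter.unusedSectionVars false

namespace Pool.Agent.P.MP_b83182_al

/-- Images of the basis vectors, given images of the generators. -/
def img {M : Type} [LieRing M] (P Q A X1 Y1 X2 Y2 X3 Y3 : M) : I → M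
  | .p => P
  | .q => Q
  | .a => A
  | .r => ⁅P, Q⁆
  | .f => ⁅Q, A⁆
  | .x1 => X1
  | .y1 => Y1
  | .x2 => X2
  | .y2 => Y2
  | .x3 => X3
  | .y3 => Y3
  | .u1 => ⁅Q, X1⁆
  | .v1 => ⁅Q, Y1⁆
  | .u2 => ⁅Q, X2⁆
  | .v2 => ⁅Q, Y2⁆
  | .u3 => ⁅Q, X3⁆
  | .v3 => ⁅Q, Y3⁆
  | .z1 => ⁅P, ⁅P, Q⁆⁆
  | .z2 => ⁅P, A⁆
  | .z3 => ⁅Q, ⁅Q, A⁆⁆

variable {F : Type} [Field F] [CharZero F]

/-- The conditions on the generators. -/
structure Good (c1 c2 c3 : F) {d1 d2 d3 : F} (P Q A X1 Y1 X2 Y2 X3 Y3 : G F d1 d2 d3) : Prop where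
  hP : P ∈ Co d1 d2 d3 [.p, .r, .f, .x1, .y1, .x2, .y2, .x3, .y3, .u1, .v1, .u2, .v2, .u3, .v3, .z1, .z2, .z3]
  hQ : Q ∈ Co d1 d2 d3 [.q, .a, .r, .f, .x1, .y1, .x2, .y2, .x3, .y3, .u1, .v1, .u2, .v2, .u3, .v3, .z1, .z2, .z3]
  hA : A ∈ Co d1 d2 d3 [.a, .f, .u1, .v1, .u2, .v2, .u3, .v3, .z1, .z2, .z3]
  hX1 : X1 ∈ Co d1 d2 d3 [.r, .f, .x1, .y1, .u1, .v1, .u2, .v2, .u3, .v3, .z1, .z2, .z3]
  hY1 : Y1 ∈ Co d1 d2 d3 [.r, .f, .x1, .y1, .u1, .v1, .u2, .v2, .u3, .v3, .z1, .z2, .z3]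
  hX2 : X2 ∈ Co d1 d2 d3 [.r, .f, .x2, .y2, .u1, .v1, .u2, .v2, .u3, .v3, .z1, .z2, .z3]
  hY2 : Y2 ∈ Co d1 d2 d3 [.r, .f, .x2, .y2, .u1, .v1, .u2, .v2, .u3, .v3, .z1, .z2, .z3]
  hX3 : X3 ∈ Co d1 d2 d3 [.r, .f, .x3, .y3, .u1, .v1, .u2, .v2, .u3, .v3, .z1, .z2, .z3]
  hY3 : Y3 ∈ Co d1 d2 d3 [.r, .f, .x3, .y3, .u1, .v1, .u2, .v2, .u3, .v3, .z1, .z2, .z3]
  pq : P .p = Q .q
  q0 : Q .q ≠ 0
  a0 : A .a ≠ 0
  n1 : X1 .x1 * Y1 .y1 - X1 .y1 * Y1 .x1 ≠ 0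
  n2 : X2 .x2 * Y2 .y2 - X2 .y2 * Y2 .x2 ≠ 0
  n3 : X3 .x3 * Y3 .y3 - X3 .y3 * Y3 .x3 ≠ 0
  r11 : ⁅P, X1⁆ = ⁅Q, Y1⁆
  r12 : ⁅P, Y1⁆ = ⁅Q, (2 : F) • Y1 - (2 : F) • X1⁆
  r21 : ⁅P, X2⁆ = ⁅Q, Y2⁆
  r22 : ⁅P, Y2⁆ = ⁅Q, (17 : F) • X2⁆
  r31 : ⁅P, X3⁆ = ⁅Q, Y3⁆
  r32 : ⁅P, Y3⁆ = ⁅Q, (-17 : F) • X3⁆
  e1 : ⁅X1, Y1⁆ = c1 • ⁅P, ⁅P, Q⁆⁆
  e2 : ⁅X2, Y2⁆ = c2 • ⁅P, A⁆
  e3 : ⁅X3, Y3⁆ = c3 • ⁅Q, ⁅Q, A⁆⁆

variable {c1 c2 c3 d1 d2 d3 : F} {P Q A X1 Y1 X2 Y2 X3 Y3 : G F d1 d2 d3}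

omit [CharZero F] in
lemma comb_apply (u : G F c1 c2 c3) (k : I) :
    (∑ i, u i • img P Q A X1 Y1 X2 Y2 X3 Y3 i) k =
      u .p * P k +
      u .q * Q k +
      u .a * A k +
      u .r * ⁅P, Q⁆ k +
      u .f * ⁅Q, A⁆ k +
      u .x1 * X1 k +
      u .y1 * Y1 k +
      u .x2 * X2 k +
      u .y2 * Y2 k +
      u .x3 * X3 k +
      u .y3 * Y3 k +
      u .u1 * ⁅Q, X1⁆ k +
      u .v1 * ⁅Q, Y1⁆ k +
      u .u2 * ⁅Q, X2⁆ k +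
      u .v2 * ⁅Q, Y2⁆ k +
      u .u3 * ⁅Q, X3⁆ k +
      u .v3 * ⁅Q, Y3⁆ k +
      u .z1 * ⁅P, ⁅P, Q⁆⁆ k +
      u .z2 * ⁅P, A⁆ k +
      u .z3 * ⁅Q, ⁅Q, A⁆⁆ k := by
  rw [G.sum_apply, I.sum_eq]
  rfl

lemma Good.map_lie (h : Good c1 c2 c3 P Q A X1 Y1 X2 Y2 X3 Y3) (u w : G F c1 c2 c3) :
    (∑ i, ⁅u, w⁆ i • img P Q A X1 Y1 X2 Y2 X3 Y3 i) =
      ⁅∑ i, u i • img P Q A X1 Y1 X2 Y2 X3 Y3 i, ∑ i, w i • img P Q A X1 Y1 X2 Y2 X3 Y3 i⁆ := by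
  obtain ⟨hP, hQ, hA, hX1, hY1, hX2, hY2, hX3, hY3, -, -, -, -, -, -, r11, r12, r21, r22, r31, r32,
    e1, e2, e3⟩ := h
  simp [mem_Co, I.forall_iff] at hP hQ hA hX1 hY1 hX2 hY2 hX3 hY3
  ext k
  have r11 := congrFun r11 k
  have r12 := congrFun r12 k
  have r21 := congrFun r21 k
  have r22 := congrFun r22 k
  have r31 := congrFun r31 k
  have r32 := congrFun r32 k
  have e1 := congrFun e1 k
  have e2 := congrFun e2 k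
  have e3 := congrFun e3 k
  cases k <;>
  simp only [comb_apply, br_p, br_q, br_a, br_r, br_f, br_x1, br_y1, br_x2, br_y2, br_x3, br_y3, br_u1, br_v1, br_u2, br_v2, br_u3, br_v3, br_z1, br_z2, br_z3,
    G.smul_apply, G.sub_apply, hP, hQ, hA, hX1, hY1, hX2, hY2, hX3, hY3]
    at r11 r12 r21 r22 r31 r32 e1 e2 e3 ⊢ <;>
  first
  | ring1
  | linear_combination (-(u .p * w .x1 - u .x1 * w .p)) * r11 - (u .p * w .y1 - u .y1 * w .p) * r12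
      - (u .p * w .x2 - u .x2 * w .p) * r21 - (u .p * w .y2 - u .y2 * w .p) * r22
      - (u .p * w .x3 - u .x3 * w .p) * r31 - (u .p * w .y3 - u .y3 * w .p) * r32
      - (u .x1 * w .y1 - u .y1 * w .x1) * e1 - (u .x2 * w .y2 - u .y2 * w .x2) * e2
      - (u .x3 * w .y3 - u .y3 * w .x3) * e3

omit [CharZero F] in
lemma solve2 {a b c d s t : F} (h : a * d - b * c ≠ 0) (h1 : s * a + t * c = 0)
    (h2 : s * b + t * d = 0) : s = 0 ∧ t = 0 := by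
  constructor
  · apply mul_left_cancel₀ h
    linear_combination d * h1 - c * h2
  · apply mul_left_cancel₀ h
    linear_combination a * h2 - b * h1

lemma Good.inj (h : Good c1 c2 c3 P Q A X1 Y1 X2 Y2 X3 Y3) (u : G F c1 c2 c3)
    (hu : (∑ i, u i • img P Q A X1 Y1 X2 Y2 X3 Y3 i) = 0) : u = 0 := by
  obtain ⟨hP, hQ, hA, hX1, hY1, hX2, hY2, hX3, hY3, pq, q0, a0, n1, n2, n3, -⟩ := h
  simp [mem_Co, I.forall_iff] at hP hQ hA hX1 hY1 hX2 hY2 hX3 hY3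
  have hk : ∀ k, (∑ i, u i • img P Q A X1 Y1 X2 Y2 X3 Y3 i) k = 0 := fun k => congrFun hu k
  simp only [I.forall_iff, comb_apply, br_p, br_q, br_a, br_r, br_f, br_x1, br_y1, br_x2, br_y2, br_x3, br_y3, br_u1, br_v1, br_u2, br_v2, br_u3, br_v3, br_z1, br_z2, br_z3,
    hP, hQ, hA, hX1, hY1, hX2, hY2, hX3, hY3, pq] at hk
  obtain ⟨kp, kq, ka, kr, kf, kx1, ky1, kx2, ky2, kx3, ky3, ku1, kv1, ku2, kv2, ku3, kv3, kz1, kz2, kz3⟩ := hk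
  have up : u .p = 0 := mul_right_cancel₀ q0 (by linear_combination kp)
  have uq : u .q = 0 := mul_right_cancel₀ q0 (by linear_combination kq)
  have ua : u .a = 0 := mul_right_cancel₀ a0 (by rw [uq] at ka; linear_combination ka)
  rw [up, uq] at kx1 ky1 kx2 ky2 kx3 ky3
  obtain ⟨ux1, uy1⟩ : u .x1 = 0 ∧ u .y1 = 0 :=
    solve2 n1 (by linear_combination kx1) (by linear_combination ky1)
  obtain ⟨ux2, uy2⟩ : u .x2 = 0 ∧ u .y2 = 0 :=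
    solve2 n2 (by linear_combination kx2) (by linear_combination ky2)
  obtain ⟨ux3, uy3⟩ : u .x3 = 0 ∧ u .y3 = 0 :=
    solve2 n3 (by linear_combination kx3) (by linear_combination ky3)
  simp only [up, uq, ua, ux1, uy1, ux2, uy2, ux3, uy3] at kr kf ku1 kv1 ku2 kv2 ku3 kv3 kz1 kz2 kz3
  have ur : u .r = 0 := mul_right_cancel₀ (mul_ne_zero q0 q0) (by linear_combination kr)
  have uf : u .f = 0 := mul_right_cancel₀ (mul_ne_zero q0 a0) (by linear_combination kf)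
  simp only [ur, uf] at ku1 kv1 ku2 kv2 ku3 kv3 kz1 kz2 kz3
  obtain ⟨uu1, uv1⟩ : u .u1 = 0 ∧ u .v1 = 0 :=
    solve2 n1 (mul_left_cancel₀ q0 (by linear_combination ku1))
      (mul_left_cancel₀ q0 (by linear_combination kv1))
  obtain ⟨uu2, uv2⟩ : u .u2 = 0 ∧ u .v2 = 0 :=
    solve2 n2 (mul_left_cancel₀ q0 (by linear_combination ku2))
      (mul_left_cancel₀ q0 (by linear_combination kv2))
  obtain ⟨uu3, uv3⟩ : u .u3 = 0 ∧ u .v3 = 0 :=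
    solve2 n3 (mul_left_cancel₀ q0 (by linear_combination ku3))
      (mul_left_cancel₀ q0 (by linear_combination kv3))
  simp only [uu1, uv1, uu2, uv2, uu3, uv3] at kz1 kz2 kz3
  have kA : A .r = 0 := by simp [hA]
  have uz1 : u .z1 = 0 := mul_right_cancel₀ (mul_ne_zero q0 (mul_ne_zero q0 q0))
    (by linear_combination kz1)
  have uz2 : u .z2 = 0 := mul_right_cancel₀ (mul_ne_zero q0 a0) (by linear_combination kz2)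
  have uz3 : u .z3 = 0 := mul_right_cancel₀ (mul_ne_zero q0 (mul_ne_zero q0 a0))
    (by linear_combination kz3)
  ext k
  cases k <;> assumption

theorem Good.exists_equiv (h : Good c1 c2 c3 P Q A X1 Y1 X2 Y2 X3 Y3) :
    ∃ Ψ : G F c1 c2 c3 ≃ₗ⁅F⁆ G F d1 d2 d3,
      ∀ u, Ψ u = ∑ i, u i • img P Q A X1 Y1 X2 Y2 X3 Y3 i := by
  let ψ : G F c1 c2 c3 →ₗ⁅F⁆ G F d1 d2 d3 :=
    { toFun := fun u => ∑ i, u i • img P Q A X1 Y1 X2 Y2 X3 Y3 i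
      map_add' := fun u w => by simp [add_smul, Finset.sum_add_distrib]
      map_smul' := fun s u => by simp [mul_smul, Finset.smul_sum]
      map_lie' := fun {u w} => h.map_lie u w }
  have hinj : Function.Injective ψ := by
    rw [injective_iff_map_eq_zero]
    exact h.inj
  have hsur : Function.Surjective ψ :=
    (LinearMap.injective_iff_surjective_of_finrank_eq_finrank (f := ψ.toLinearMap) rfl).1 hinj
  exact ⟨LieEquiv.ofBijective ψ ⟨hinj, hsur⟩, fun _ => rfl⟩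

end Pool.Agent.P.MP_b83182_al
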