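import Mathlib

/-!
The products of norms from the fields generated by the square roots of `-1`, `17` and `-17` form a
subgroup of index two of the nonzero rationals.
-/

namespace Pool.Agent.P.MP_b83182_al

/-- `x` is a norm from the quadratic algebra of discriminant class `d`. -/
def Nm (d x : ℚ) : Prop := ∃ g h : ℚ, x = g ^ 2 - d * h ^ 2

lemma Nm.mul {d x y : ℚ} (hx : Nm d x) (hy : Nm d y) : Nm d (x * y) := by
  obtain ⟨g, h, rfl⟩ := hx
  obtain ⟨g', h', rfl⟩ := hy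
  exact ⟨g * g' + d * h * h', g * h' + h * g', by ring⟩

lemma Nm_sq (d s : ℚ) : Nm d (s ^ 2) := ⟨s, 0, by ring⟩

lemma Nm_one (d : ℚ) : Nm d 1 := ⟨1, 0, by ring⟩

/-- Products of three norms. -/
def HH (c : ℚ) : Prop :=
  ∃ n1 n2 n3, Nm (-1) n1 ∧ Nm 17 n2 ∧ Nm (-17) n3 ∧ c = n1 * n2 * n3

lemma HH.mul {x y : ℚ} (hx : HH x) (hy : HH y) : HH (x * y) := by
  obtain ⟨a1, a2, a3, h1, h2, h3, rfl⟩ := hx
  obtain ⟨b1, b2, b3, k1, k2, k3, rfl⟩ := hy
  exact ⟨_, _, _, h1.mul k1, h2.mul k2, h3.mul k3, by ring⟩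

lemma HH_1 {x : ℚ} (h : Nm (-1) x) : HH x := ⟨x, 1, 1, h, Nm_one _, Nm_one _, by ring⟩
lemma HH_2 {x : ℚ} (h : Nm 17 x) : HH x := ⟨1, x, 1, Nm_one _, h, Nm_one _, by ring⟩
lemma HH_3 {x : ℚ} (h : Nm (-17) x) : HH x := ⟨1, 1, x, Nm_one _, Nm_one _, h, by ring⟩
lemma HH_sq (s : ℚ) : HH (s ^ 2) := HH_1 (Nm_sq _ s)

lemma HH.of_mul_sq {x s : ℚ} (hs : s ≠ 0) (h : HH (x * s ^ 2)) : HH x := by
  have := h.mul (HH_sq s⁻¹)
  convert this using 1
  field_simp

/-- The union of the two cosets. -/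
def SS (c : ℚ) : Prop := HH c ∨ HH (3 * c)

lemma SS.mul {x y : ℚ} (hx : SS x) (hy : SS y) : SS (x * y) := by
  rcases hx with hx | hx <;> rcases hy with hy | hy
  · exact Or.inl (hx.mul hy)
  · exact Or.inr (by convert hx.mul hy using 1; ring)
  · exact Or.inr (by convert hx.mul hy using 1; ring)
  · exact Or.inl (HH.of_mul_sq (s := 3) (by norm_num) (by convert hx.mul hy using 1; ring))

lemma SS.of_mul_sq {x s : ℚ} (hs : s ≠ 0) (h : SS (x * s ^ 2)) : SS x := by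
  rcases h with h | h
  · exact Or.inl (h.of_mul_sq hs)
  · exact Or.inr (HH.of_mul_sq hs (by convert h using 1; ring))

lemma SS_neg_one : SS (-1) := Or.inl (HH_2 ⟨4, 1, by norm_num⟩)

lemma SS_int {m : ℤ} (h : SS (m.natAbs : ℚ)) : SS (m : ℚ) := by
  rcases Int.natAbs_eq m with e | e
  · rw [e]; simpa using h
  · rw [e]; simpa using SS_neg_one.mul h

lemma exists_sq_class (p : ℕ) [Fact p.Prime] :
    ∃ d : ℤ, (d = -1 ∨ d = 17 ∨ d = -17) ∧ IsSquare (d : ZMod p) := by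
  by_cases h1 : IsSquare ((-1 : ℤ) : ZMod p)
  · exact ⟨-1, Or.inl rfl, h1⟩
  by_cases h2 : IsSquare ((17 : ℤ) : ZMod p)
  · exact ⟨17, Or.inr (Or.inl rfl), h2⟩
  refine ⟨-17, Or.inr (Or.inr rfl), ?_⟩
  by_contra h3
  rw [← quadraticChar_neg_one_iff_not_isSquare] at h1 h2 h3
  have : ((-17 : ℤ) : ZMod p) = ((-1 : ℤ) : ZMod p) * ((17 : ℤ) : ZMod p) := by push_cast; ring
  rw [this, map_mul, h1, h2] at h3
  norm_num at h3

lemma SS_nat (n : ℕ) (hn : 0 < n) : SS n := by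
  induction n using Nat.strong_induction_on with
  | _ n ih =>
  by_cases h1 : n = 1
  · subst h1; exact Or.inl (by simpa using HH_sq 1)
  by_cases hp : n.Prime
  · by_cases hsmall : n < 10
    · interval_cases n
      · exact absurd rfl h1
      · exact Or.inl (HH_1 ⟨1, 1, by norm_num⟩)
      · exact Or.inr (HH_1 ⟨3, 0, by norm_num⟩)
      · exact absurd hp (by norm_num)
      · exact Or.inl (HH_1 ⟨2, 1, by norm_num⟩)
      · exact absurd hp (by norm_num)
      · exact Or.inr (HH_3 ⟨2, 1, by norm_num⟩)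
      · exact absurd hp (by norm_num)
      · exact absurd hp (by norm_num)
    · have : Fact n.Prime := ⟨hp⟩
      obtain ⟨d, hd, y, hy⟩ := exists_sq_class n
      have hdvd : (n : ℤ) ∣ (y.val : ℤ) ^ 2 - d := by
        rw [← ZMod.intCast_zmod_eq_zero_iff_dvd]
        push_cast
        rw [ZMod.natCast_zmod_val, hy]
        ring
      obtain ⟨m, hm⟩ := hdvd
      have hlt : (y.val : ℤ) + 1 ≤ n := by exact_mod_cast ZMod.val_lt y
      have h0 : (0 : ℤ) ≤ y.val := Int.natCast_nonneg _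
      have hn10 : (10 : ℤ) ≤ n := by exact_mod_cast not_lt.1 hsmall
      have hm0 : m ≠ 0 := by
        rintro rfl
        rcases hd with rfl | rfl | rfl
        · nlinarith
        · have h5 : (y.val : ℤ) < 5 := by nlinarith
          have h4 : (4 : ℤ) < y.val := by nlinarith
          omega
        · nlinarith
      have hmlt : m.natAbs < n := by
        have h1 : m < n := by rcases hd with rfl | rfl | rfl <;> nlinarith
        have h2 : -(n : ℤ) < m := by rcases hd with rfl | rfl | rfl <;> nlinarith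
        omega
      have hSm : SS (m : ℚ) := SS_int (ih _ hmlt (Int.natAbs_pos.2 hm0))
      have hH : HH ((n : ℚ) * m) := by
        have e : (n : ℚ) * m = (y.val : ℚ) ^ 2 - d * 1 ^ 2 := by
          have : (((y.val : ℤ) ^ 2 - d : ℤ) : ℚ) = ((n * m : ℤ) : ℚ) := by rw [hm]
          push_cast at this
          rw [← this]; ring
        rcases hd with rfl | rfl | rfl
        · exact HH_1 ⟨_, 1, by simpa using e⟩
        · exact HH_2 ⟨_, 1, by simpa using e⟩
        · exact HH_3 ⟨_, 1, by simpa using e⟩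
      refine SS.of_mul_sq (s := m) (by exact_mod_cast hm0) ?_
      have := SS.mul (Or.inl hH) hSm
      convert this using 1
      ring
  · obtain ⟨a, b, ha, hb, hab⟩ := (Nat.not_prime_iff_exists_mul_eq (by omega)).1 hp
    have ha0 : 0 < a := Nat.pos_of_ne_zero (by rintro rfl; omega)
    have hb0 : 0 < b := Nat.pos_of_ne_zero (by rintro rfl; omega)
    have := (ih a ha ha0).mul (ih b hb hb0)
    rw [← hab]
    exact_mod_cast this

theorem SS_all (c : ℚ) (hc : c ≠ 0) : SS c := by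
  have hd : (c.den : ℚ) ≠ 0 := by exact_mod_cast c.den_nz
  refine SS.of_mul_sq hd ?_
  have h1 : SS (c.num : ℚ) := SS_int (SS_nat _ (Int.natAbs_pos.2 (Rat.num_ne_zero.2 hc)))
  have := h1.mul (SS_nat c.den c.den_pos)
  convert this using 1
  rw [sq, ← mul_assoc, Rat.mul_den_eq_num]

open Classical in
/-- The sign attached to a prime. -/
noncomputable def sg (p : ℕ) : ℤ := if p % 4 = 3 ∧ ¬ IsSquare (p : ZMod 17) then -1 else 1

/-- The completely multiplicative extension of `sg`. -/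
noncomputable def ff (n : ℕ) : ℤ := (n.primeFactorsList.map sg).prod

lemma ff_mul {a b : ℕ} (ha : a ≠ 0) (hb : b ≠ 0) : ff (a * b) = ff a * ff b := by
  rw [ff, ((Nat.perm_primeFactorsList_mul ha hb).map sg).prod_eq, List.map_append,
    List.prod_append]
  rfl

lemma ff_prime {p : ℕ} (hp : p.Prime) : ff p = sg p := by
  simp [ff, Nat.primeFactorsList_prime hp]

lemma ff_sq (n : ℕ) : ff n * ff n = 1 := by
  unfold ff
  induction n.primeFactorsList with
  | nil => simp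
  | cons a l ih =>
    have : sg a * sg a = 1 := by unfold sg; split_ifs <;> norm_num
    rw [List.map_cons, List.prod_cons]
    linear_combination (sg a * sg a) * ih + this

lemma ff_eq_one {m : ℕ} (h : ∀ p, p.Prime → p ∣ m → sg p = 1) : ff m = 1 := by
  refine List.prod_eq_one fun x hx => ?_
  obtain ⟨p, hp, rfl⟩ := List.mem_map.1 hx
  exact h p (Nat.prime_of_mem_primeFactorsList hp) (Nat.dvd_of_mem_primeFactorsList hp)

instance fact17 : Fact (Nat.Prime 17) := ⟨by norm_num⟩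

lemma ff_eq_chi {m : ℕ} (hm : m ≠ 0)
    (h : ∀ p, p.Prime → p ∣ m → sg p = quadraticChar (ZMod 17) p) :
    ff m = quadraticChar (ZMod 17) m := by
  have h1 : m.primeFactorsList.map sg =
      m.primeFactorsList.map fun p : ℕ => quadraticChar (ZMod 17) (p : ZMod 17) :=
    List.map_congr_left fun p hp =>
      h p (Nat.prime_of_mem_primeFactorsList hp) (Nat.dvd_of_mem_primeFactorsList hp)
  rw [ff, h1]
  conv_rhs => rw [← Nat.prod_primeFactorsList hm, Nat.cast_list_prod, map_list_prod]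
  rw [List.map_map]
  rfl

lemma isSquare_of_dvd {p : ℕ} [Fact p.Prime] {g h d : ℤ} (hc : Int.gcd g h = 1)
    (hd : (p : ℤ) ∣ g ^ 2 - d * h ^ 2) : IsSquare (d : ZMod p) := by
  rw [← ZMod.intCast_zmod_eq_zero_iff_dvd] at hd
  push_cast at hd
  by_cases hh : (h : ZMod p) = 0
  · exfalso
    have hg : (g : ZMod p) = 0 := by
      rw [hh] at hd
      simpa using hd
    rw [ZMod.intCast_zmod_eq_zero_iff_dvd] at hh hg
    have := Int.dvd_coe_gcd hg hh
    rw [hc] at this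
    exact (Fact.out : p.Prime).one_lt.ne' (Nat.dvd_one.1 (by exact_mod_cast this))
  · refine ⟨g / h, ?_⟩
    field_simp
    linear_combination -hd

lemma sq17 {p : ℕ} [Fact p.Prime] (h : IsSquare ((17 : ℤ) : ZMod p)) : IsSquare (p : ZMod 17) := by
  by_cases h2 : p = 2
  · subst h2
    exact ⟨6, by decide⟩
  · rw [ZMod.exists_sq_eq_prime_iff_of_mod_four_eq_one (p := 17) (by norm_num) h2]
    exact_mod_cast h

lemma ff_coprime_1 {g h : ℤ} (hc : Int.gcd g h = 1) : ff (g ^ 2 - (-1) * h ^ 2).natAbs = 1 := by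
  refine ff_eq_one fun p hp hd => ?_
  have : Fact p.Prime := ⟨hp⟩
  have h1 := isSquare_of_dvd hc (Int.natCast_dvd.2 hd)
  have h2 : p % 4 ≠ 3 := ZMod.exists_sq_eq_neg_one_iff.1 (by exact_mod_cast h1)
  simp [sg, h2]

lemma ff_coprime_2 {g h : ℤ} (hc : Int.gcd g h = 1) : ff (g ^ 2 - 17 * h ^ 2).natAbs = 1 := by
  refine ff_eq_one fun p hp hd => ?_
  have : Fact p.Prime := ⟨hp⟩
  have h1 := sq17 (isSquare_of_dvd hc (Int.natCast_dvd.2 hd))
  simp [sg, h1]

lemma sg_eq_chi {p : ℕ} (hp : p.Prime) (h17 : (p : ZMod 17) ≠ 0)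
    (h : IsSquare ((-17 : ℤ) : ZMod p)) : sg p = quadraticChar (ZMod 17) p := by
  have : Fact p.Prime := ⟨hp⟩
  by_cases hs : IsSquare (p : ZMod 17)
  · rw [(quadraticChar_one_iff_isSquare h17).2 hs]
    simp [sg, hs]
  · rw [quadraticChar_neg_one_iff_not_isSquare.2 hs]
    have h3 : p % 4 = 3 := by
      by_contra h3
      apply hs
      apply sq17
      have := (ZMod.exists_sq_eq_neg_one_iff.2 h3).mul h
      have e : (-1 : ZMod p) * ((-17 : ℤ) : ZMod p) = ((17 : ℤ) : ZMod p) := by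
        rw [Int.cast_neg, neg_mul_neg, one_mul]
      rwa [e] at this
    simp [sg, hs, h3]

lemma ff_coprime_3 {g h : ℤ} (hc : Int.gcd g h = 1) : ff (g ^ 2 - (-17) * h ^ 2).natAbs = 1 := by
  have aux : ∀ (m : ℕ) (t : ZMod 17), t ≠ 0 → (m : ZMod 17) = t ^ 2 →
      m ∣ (g ^ 2 - (-17) * h ^ 2).natAbs → ff m = 1 := by
    intro m t ht hm hd
    have hm17 : (m : ZMod 17) ≠ 0 := by rw [hm]; exact pow_ne_zero 2 ht
    have hm0 : m ≠ 0 := by rintro rfl; exact hm17 (by simp)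
    rw [ff_eq_chi hm0, hm, quadraticChar_sq_one' ht]
    intro p hp hpm
    have : Fact p.Prime := ⟨hp⟩
    refine sg_eq_chi hp ?_ (isSquare_of_dvd hc (Int.natCast_dvd.2 (hpm.trans hd)))
    intro h0
    obtain ⟨k, rfl⟩ := hpm
    exact hm17 (by rw [Nat.cast_mul, h0, zero_mul])
  have h17 : (17 : ZMod 17) = 0 := by decide
  by_cases hg : (g : ZMod 17) = 0
  · obtain ⟨g', rfl⟩ := (ZMod.intCast_zmod_eq_zero_iff_dvd g 17).1 hg
    have hh : (h : ZMod 17) ≠ 0 := by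
      intro hh
      have := Int.dvd_coe_gcd (dvd_mul_right ((17 : ℕ) : ℤ) g')
        ((ZMod.intCast_zmod_eq_zero_iff_dvd h 17).1 hh)
      rw [hc] at this
      norm_num at this
    have e : ((((17 : ℕ) : ℤ) * g') ^ 2 - (-17) * h ^ 2).natAbs =
        17 * (17 * g' ^ 2 + h ^ 2).natAbs := by
      have : (((17 : ℕ) : ℤ) * g') ^ 2 - (-17) * h ^ 2 = 17 * (17 * g' ^ 2 + h ^ 2) := by
        push_cast; ring
      rw [this, Int.natAbs_mul]
      rfl
    have hcast : (((17 * g' ^ 2 + h ^ 2).natAbs : ℕ) : ZMod 17) = (h : ZMod 17) ^ 2 := by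
      rw [← Int.cast_natCast, Int.natAbs_of_nonneg (by positivity)]
      push_cast
      rw [h17]; ring
    have h1 := aux _ _ hh hcast (by rw [e]; exact dvd_mul_left _ _)
    have h0 : (17 * g' ^ 2 + h ^ 2).natAbs ≠ 0 := by
      intro h0
      rw [h0] at hcast
      exact pow_ne_zero 2 hh (by simpa using hcast.symm)
    rw [e, ff_mul (by norm_num) h0, h1, ff_prime (by norm_num)]
    simp [sg]
  · refine aux _ _ hg ?_ dvd_rfl
    rw [← Int.cast_natCast, Int.natAbs_of_nonneg (by nlinarith [sq_nonneg g, sq_nonneg h])]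
    push_cast
    rw [h17]; ring

lemma ff_norm {d : ℤ} (H : ∀ g h : ℤ, Int.gcd g h = 1 → ff (g ^ 2 - d * h ^ 2).natAbs = 1)
    {g h : ℤ} (h0 : g ^ 2 - d * h ^ 2 ≠ 0) : ff (g ^ 2 - d * h ^ 2).natAbs = 1 := by
  have hpos : 0 < Int.gcd g h := by
    rw [Int.gcd_pos_iff]
    by_contra hh
    push Not at hh
    exact h0 (by rw [hh.1, hh.2]; ring)
  obtain ⟨g', h', hc, e1, e2⟩ := Int.exists_gcd_one hpos
  generalize Int.gcd g h = k at *
  have e : g ^ 2 - d * h ^ 2 = (g' ^ 2 - d * h' ^ 2) * (k * k) := by rw [e1, e2]; ring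
  have h1 : (g' ^ 2 - d * h' ^ 2).natAbs ≠ 0 := by
    rw [Ne, Int.natAbs_eq_zero]
    intro hz
    exact h0 (by rw [e, hz, zero_mul])
  rw [e, Int.natAbs_mul, Int.natAbs_mul, Int.natAbs_natCast,
    ff_mul h1 (Nat.mul_ne_zero hpos.ne' hpos.ne'), ff_mul hpos.ne' hpos.ne', ff_sq, H _ _ hc]
  rfl

lemma Nm.clear {d : ℤ} {x : ℚ} (hx : Nm d x) :
    ∃ (D : ℕ) (g h : ℤ), D ≠ 0 ∧ x * (D * D) = ((g ^ 2 - d * h ^ 2 : ℤ) : ℚ) := by
  obtain ⟨g, h, rfl⟩ := hx
  refine ⟨g.den * h.den, g.num * h.den, h.num * g.den, Nat.mul_ne_zero g.den_nz h.den_nz, ?_⟩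
  push_cast
  rw [← Rat.mul_den_eq_num g, ← Rat.mul_den_eq_num h]
  ring

theorem not_HH_three : ¬ HH 3 := by
  rintro ⟨n1, n2, n3, h1, h2, h3, h⟩
  obtain ⟨D1, g1, k1, d1, e1⟩ := Nm.clear (d := -1) (by exact_mod_cast h1)
  obtain ⟨D2, g2, k2, d2, e2⟩ := Nm.clear (d := 17) (by exact_mod_cast h2)
  obtain ⟨D3, g3, k3, d3, e3⟩ := Nm.clear (d := -17) (by exact_mod_cast h3)
  have e : (3 : ℤ) * ((D1 * D2 * D3 : ℕ) * (D1 * D2 * D3 : ℕ)) =
      (g1 ^ 2 - (-1) * k1 ^ 2) * (g2 ^ 2 - 17 * k2 ^ 2) * (g3 ^ 2 - (-17) * k3 ^ 2) := by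
    have : (((3 : ℤ) * ((D1 * D2 * D3 : ℕ) * (D1 * D2 * D3 : ℕ)) : ℤ) : ℚ) =
        (((g1 ^ 2 - (-1) * k1 ^ 2) * (g2 ^ 2 - 17 * k2 ^ 2) * (g3 ^ 2 - (-17) * k3 ^ 2) : ℤ) : ℚ) := by
      rw [Int.cast_mul _ (g3 ^ 2 - (-17) * k3 ^ 2),
        Int.cast_mul (g1 ^ 2 - (-1) * k1 ^ 2), ← e1, ← e2, ← e3]
      push_cast
      rw [h]; ring
    exact_mod_cast this
  have hD : D1 * D2 * D3 ≠ 0 := Nat.mul_ne_zero (Nat.mul_ne_zero d1 d2) d3
  have hne : (g1 ^ 2 - (-1) * k1 ^ 2) * (g2 ^ 2 - 17 * k2 ^ 2) * (g3 ^ 2 - (-17) * k3 ^ 2) ≠ 0 := by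
    rw [← e]
    have : ((D1 * D2 * D3 : ℕ) : ℤ) ≠ 0 := by exact_mod_cast hD
    exact mul_ne_zero (by norm_num) (mul_ne_zero this this)
  have m1 := left_ne_zero_of_mul (left_ne_zero_of_mul hne)
  have m2 := right_ne_zero_of_mul (left_ne_zero_of_mul hne)
  have m3 := right_ne_zero_of_mul hne
  have := congrArg (fun z : ℤ => ff z.natAbs) e
  simp only [Int.natAbs_mul, Int.natAbs_natCast] at this
  rw [ff_mul (Nat.mul_ne_zero (Int.natAbs_ne_zero.2 m1) (Int.natAbs_ne_zero.2 m2))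
      (Int.natAbs_ne_zero.2 m3), ff_mul (Int.natAbs_ne_zero.2 m1) (Int.natAbs_ne_zero.2 m2),
    ff_norm (fun _ _ => ff_coprime_1) m1, ff_norm (fun _ _ => ff_coprime_2) m2,
    ff_norm (fun _ _ => ff_coprime_3) m3, ff_mul (by norm_num) (Nat.mul_ne_zero hD hD),
    ff_mul hD hD, ff_sq] at this
  have h3 : ff (Int.natAbs 3) = -1 := by
    have : ¬ IsSquare ((3 : ℕ) : ZMod 17) := by decide
    show ff 3 = -1
    rw [ff_prime (by norm_num), sg, if_pos ⟨by norm_num, this⟩]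
  rw [h3] at this
  norm_num at this

end Pool.Agent.P.MP_b83182_al
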