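import Mathlib
import Pool.Agent.P.MP_b83182_al.Hom
import Pool.Agent.P.MP_b83182_al.NT

/-!
Isomorphisms and non-isomorphisms inside the family, and base change.
-/

set_option linter.unusedSimpArgs false
set_option linter.unreachableTactic false
set_option linter.unusedTactic false

open scoped TensorProduct

namespace Pool.Agent.P.MP_b83182_al

section

variable {F : Type} [Field F] [CharZero F] {c1 c2 c3 d1 d2 d3 : F}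

lemma scale_equiv (s a g1 h1 g2 h2 g3 h3 : F) (hs : s ≠ 0) (ha : a ≠ 0)
    (n1 : (g1 + h1) ^ 2 + h1 ^ 2 ≠ 0) (n2 : g2 ^ 2 - 17 * h2 ^ 2 ≠ 0)
    (n3 : g3 ^ 2 + 17 * h3 ^ 2 ≠ 0)
    (e1 : c1 * s ^ 3 = d1 * ((g1 + h1) ^ 2 + h1 ^ 2)) (e2 : c2 * (s * a) = d2 * (g2 ^ 2 - 17 * h2 ^ 2))
    (e3 : c3 * (s ^ 2 * a) = d3 * (g3 ^ 2 + 17 * h3 ^ 2)) :
    Nonempty (G F c1 c2 c3 ≃ₗ⁅F⁆ G F d1 d2 d3) := by
  have : Good c1 c2 c3 (s • E d1 d2 d3 .p) (s • E d1 d2 d3 .q) (a • E d1 d2 d3 .a)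
      (g1 • E d1 d2 d3 .x1 + h1 • E d1 d2 d3 .y1)
      ((-2 * h1) • E d1 d2 d3 .x1 + (g1 + 2 * h1) • E d1 d2 d3 .y1)
      (g2 • E d1 d2 d3 .x2 + h2 • E d1 d2 d3 .y2)
      ((17 * h2) • E d1 d2 d3 .x2 + g2 • E d1 d2 d3 .y2)
      (g3 • E d1 d2 d3 .x3 + h3 • E d1 d2 d3 .y3)
      ((-17 * h3) • E d1 d2 d3 .x3 + g3 • E d1 d2 d3 .y3) := by
    refine ⟨?_, ?_, ?_, ?_, ?_, ?_, ?_, ?_, ?_, by simp, by simpa using hs, by simpa using ha,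
      ?_, ?_, ?_, ?_, ?_, ?_, ?_, ?_, ?_, ?_, ?_, ?_⟩
    iterate 9 simp [mem_Co, I.forall_iff]
    · convert n1 using 1; simp; ring
    · convert n2 using 1; simp; ring
    · convert n3 using 1; simp; ring
    iterate 6 (ext k; cases k <;> simp <;> ring1)
    · ext k; cases k <;> simp; linear_combination -e1
    · ext k; cases k <;> simp; linear_combination -e2
    · ext k; cases k <;> simp; linear_combination -e3
  obtain ⟨Ψ, -⟩ := this.exists_equiv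
  exact ⟨Ψ⟩

lemma normal_equiv (h2 : c2 ≠ 0) (h3 : c3 ≠ 0) :
    Nonempty (G F c1 c2 c3 ≃ₗ⁅F⁆ G F (c1 * (c2 / c3) ^ 3) 1 1) :=
  scale_equiv (c2 / c3) (c3 / c2 ^ 2) 1 0 1 0 1 0 (div_ne_zero h2 h3)
    (div_ne_zero h3 (pow_ne_zero 2 h2)) (by norm_num) (by norm_num) (by norm_num) (by ring)
    (by field_simp; ring) (by field_simp; ring)

lemma invariant (k1 : c1 ≠ 0) (k2 : c2 ≠ 0) (k3 : c3 ≠ 0) (l1 : d1 ≠ 0) (l2 : d2 ≠ 0)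
    (l3 : d3 ≠ 0) (φ : G F c1 c2 c3 ≃ₗ⁅F⁆ G F d1 d2 d3) :
    ∃ s g1 h1 g2 h2 g3 h3 : F, s ≠ 0 ∧ c1 * c2 * c3 * s ^ 2 =
      d1 * d2 * d3 * ((g1 ^ 2 + h1 ^ 2) * (g2 ^ 2 - 17 * h2 ^ 2) * (g3 ^ 2 + 17 * h3 ^ 2)) := by
  have mem : ∀ (t : Tm) (J : List I) (j : I), t.eval F (G F c1 c2 c3) = Co c1 c2 c3 J →
      t.eval F (G F d1 d2 d3) = Co d1 d2 d3 J → j ∈ J → φ (E c1 c2 c3 j) ∈ Co d1 d2 d3 J := by
    intro t J j e1 e2 hj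
    rw [← e2]
    exact t.nat φ _ (by rw [e1]; exact E_mem_Co hj)
  have hP := mem _ _ .p (ev_P k1 k2 k3) (ev_P l1 l2 l3) (by decide)
  have hQ := mem _ _ .q (ev_Q k1 k2 k3) (ev_Q l1 l2 l3) (by decide)
  have hA := mem _ _ .a (ev_A k1 k2 k3) (ev_A l1 l2 l3) (by decide)
  have hX1 := mem _ _ .x1 (ev_W1 k1 k2 k3) (ev_W1 l1 l2 l3) (by decide)
  have hY1 := mem _ _ .y1 (ev_W1 k1 k2 k3) (ev_W1 l1 l2 l3) (by decide)
  have hX2 := mem _ _ .x2 (ev_W2 k1 k2 k3) (ev_W2 l1 l2 l3) (by decide)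
  have hY2 := mem _ _ .y2 (ev_W2 k1 k2 k3) (ev_W2 l1 l2 l3) (by decide)
  have hX3 := mem _ _ .x3 (ev_W3 k1 k2 k3) (ev_W3 l1 l2 l3) (by decide)
  have hY3 := mem _ _ .y3 (ev_W3 k1 k2 k3) (ev_W3 l1 l2 l3) (by decide)
  have rel : ∀ (i j k : I) (W : G F c1 c2 c3),
      ⁅E c1 c2 c3 i, E c1 c2 c3 j⁆ = ⁅E c1 c2 c3 k, W⁆ →
      ⁅φ (E c1 c2 c3 i), φ (E c1 c2 c3 j)⁆ = ⁅φ (E c1 c2 c3 k), φ W⁆ := by
    intro i j k W h
    rw [← LieEquiv.map_lie, ← LieEquiv.map_lie, h]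
  have r11 := rel .p .x1 .q (E c1 c2 c3 .y1) (by ext k; cases k <;> simp)
  have r12 := rel .p .y1 .q ((2 : F) • E c1 c2 c3 .y1 - (2 : F) • E c1 c2 c3 .x1)
    (by ext k; cases k <;> simp)
  have r21 := rel .p .x2 .q (E c1 c2 c3 .y2) (by ext k; cases k <;> simp)
  have r31 := rel .p .x3 .q (E c1 c2 c3 .y3) (by ext k; cases k <;> simp)
  have e1 := rel .x1 .y1 .p (c1 • ⁅E c1 c2 c3 .p, E c1 c2 c3 .q⁆) (by ext k; cases k <;> simp)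
  have e2 := rel .x2 .y2 .p (c2 • E c1 c2 c3 .a) (by ext k; cases k <;> simp)
  have e3 := rel .x3 .y3 .q (c3 • ⁅E c1 c2 c3 .q, E c1 c2 c3 .a⁆) (by ext k; cases k <;> simp)
  have nz : ∀ (i j : I) (W : G F c1 c2 c3), ⁅E c1 c2 c3 i, W⁆ = E c1 c2 c3 j →
      ⁅φ (E c1 c2 c3 i), φ W⁆ ≠ 0 := by
    intro i j W h h0
    rw [← LieEquiv.map_lie, h] at h0
    have h1 : E c1 c2 c3 j = 0 := φ.injective (h0.trans (map_zero φ).symm)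
    simpa using congrFun h1 j
  have z1 := nz .p .z1 ⁅E c1 c2 c3 .p, E c1 c2 c3 .q⁆ (by ext k; cases k <;> simp)
  have z2 := nz .p .z2 (E c1 c2 c3 .a) (by ext k; cases k <;> simp)
  rw [map_sub, map_smul, map_smul] at r12
  rw [map_smul, LieEquiv.map_lie] at e1 e3
  rw [map_smul] at e2
  rw [LieEquiv.map_lie] at z1
  generalize φ (E c1 c2 c3 .p) = P at *
  generalize φ (E c1 c2 c3 .q) = Q at *
  generalize φ (E c1 c2 c3 .a) = A at *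
  generalize φ (E c1 c2 c3 .x1) = X1 at *
  generalize φ (E c1 c2 c3 .y1) = Y1 at *
  generalize φ (E c1 c2 c3 .x2) = X2 at *
  generalize φ (E c1 c2 c3 .y2) = Y2 at *
  generalize φ (E c1 c2 c3 .x3) = X3 at *
  generalize φ (E c1 c2 c3 .y3) = Y3 at *
  simp [mem_Co, I.forall_iff] at hP hQ hA hX1 hY1 hX2 hY2 hX3 hY3
  have p0 : P .p ≠ 0 := by
    intro h0
    apply z1
    ext k; cases k <;> simp [h0, hP, hQ]
  have q0 : Q .q ≠ 0 := by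
    intro h0
    apply z1
    ext k; cases k <;> simp [h0, hP, hQ]
  have a0 : A .a ≠ 0 := by
    intro h0
    apply z2
    ext k; cases k <;> simp [h0, hP, hA]
  have a1 := congrFun r11 .u1
  have a2 := congrFun r11 .v1
  have a3 := congrFun r12 .u1
  have a4 := congrFun r12 .v1
  have b1 := congrFun r21 .u2
  have b2 := congrFun r21 .v2
  have b3 := congrFun r31 .u3
  have b4 := congrFun r31 .v3
  have f1 := congrFun e1 .z1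
  have f2 := congrFun e2 .z2
  have f3 := congrFun e3 .z3
  simp only [br_p, br_q, br_a, br_r, br_f, br_x1, br_y1, br_x2, br_y2, br_x3, br_y3, br_u1, br_v1, br_u2, br_v2, br_u3, br_v3, br_z1, br_z2, br_z3,
    G.smul_apply, G.sub_apply, hP, hQ, hA, hX1, hY1, hX2, hY2, hX3, hY3]
    at a1 a2 a3 a4 b1 b2 b3 b4 f1 f2 f3
  have n1 : X1 .x1 * Y1 .y1 - X1 .y1 * Y1 .x1 ≠ 0 := by
    intro h0
    have : c1 * (P .p * (P .p * Q .q)) = 0 := by linear_combination d1 * h0 - f1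
    simp [k1, p0, q0] at this
  have pq : P .p = Q .q := by
    have := (solve2 (s := 2 * (Q .q ^ 2 - P .p ^ 2)) (t := 2 * Q .q * (P .p - Q .q)) n1
      (by linear_combination Q .q * a3 - 2 * P .p * a2 - 2 * P .p * a1)
      (by linear_combination Q .q * a4 + P .p * a1)).2
    simpa [q0, sub_eq_zero] using this
  rw [pq] at a1 a2 b1 b2 b3 b4 f1 f2
  have g1 : Y1 .x1 = -2 * X1 .y1 := mul_left_cancel₀ q0 (by linear_combination -a1)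
  have g2 : Y1 .y1 = X1 .x1 + 2 * X1 .y1 := mul_left_cancel₀ q0 (by linear_combination -a2)
  have g3 : Y2 .x2 = 17 * X2 .y2 := mul_left_cancel₀ q0 (by linear_combination -b1)
  have g4 : Y2 .y2 = X2 .x2 := mul_left_cancel₀ q0 (by linear_combination -b2)
  have g5 : Y3 .x3 = -17 * X3 .y3 := mul_left_cancel₀ q0 (by linear_combination -b3)
  have g6 : Y3 .y3 = X3 .x3 := mul_left_cancel₀ q0 (by linear_combination -b4)
  rw [g1, g2] at f1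
  rw [g3, g4] at f2
  rw [g5, g6] at f3
  have m1 : c1 * Q .q ^ 3 = d1 * ((X1 .x1 + X1 .y1) ^ 2 + X1 .y1 ^ 2) := by linear_combination -f1
  have m2 : c2 * (Q .q * A .a) = d2 * (X2 .x2 ^ 2 - 17 * X2 .y2 ^ 2) := by linear_combination -f2
  have m3 : c3 * (Q .q ^ 2 * A .a) = d3 * (X3 .x3 ^ 2 + 17 * X3 .y3 ^ 2) := by
    linear_combination -f3
  refine ⟨Q .q ^ 3 * A .a, X1 .x1 + X1 .y1, X1 .y1, X2 .x2, X2 .y2, X3 .x3, X3 .y3,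
    mul_ne_zero (pow_ne_zero 3 q0) a0, ?_⟩
  calc c1 * c2 * c3 * (Q .q ^ 3 * A .a) ^ 2
      = (c1 * Q .q ^ 3) * (c2 * (Q .q * A .a)) * (c3 * (Q .q ^ 2 * A .a)) := by ring
    _ = _ := by rw [m1, m2, m3]; ring

end

lemma HH_equiv {c d n : ℚ} (hn : HH n) (h0 : n ≠ 0) (h : c = d * n) :
    Nonempty (G ℚ c 1 1 ≃ₗ⁅ℚ⁆ G ℚ d 1 1) := by
  obtain ⟨n1, n2, n3, ⟨g1, h1, e1⟩, ⟨g2, h2, e2⟩, ⟨g3, h3, e3⟩, rfl⟩ := hn
  have k1 : n1 ≠ 0 := left_ne_zero_of_mul (left_ne_zero_of_mul h0)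
  have k2 : n2 ≠ 0 := right_ne_zero_of_mul (left_ne_zero_of_mul h0)
  have k3 : n3 ≠ 0 := right_ne_zero_of_mul h0
  have e1' : ((g1 - h1) * (n3 ^ 2 / n2) + h1 * (n3 ^ 2 / n2)) ^ 2 + (h1 * (n3 ^ 2 / n2)) ^ 2 =
      n1 * (n3 ^ 2 / n2) ^ 2 := by rw [e1]; ring
  have e3' : g3 ^ 2 + 17 * h3 ^ 2 = n3 := by rw [e3]; ring
  refine scale_equiv (n3 / n2) (n2 ^ 2 / n3) ((g1 - h1) * (n3 ^ 2 / n2)) (h1 * (n3 ^ 2 / n2))
    g2 h2 g3 h3 (div_ne_zero k3 k2) (div_ne_zero (pow_ne_zero 2 k2) k3) ?_ (e2 ▸ k2) (e3' ▸ k3)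
    ?_ ?_ ?_
  · rw [e1']
    exact mul_ne_zero k1 (pow_ne_zero 2 (div_ne_zero (pow_ne_zero 2 k3) k2))
  · rw [e1', h]; field_simp
  · rw [← e2]; field_simp
  · rw [e3']; field_simp

lemma two_classes {c1 c2 c3 : ℚ} (h1 : c1 ≠ 0) (h2 : c2 ≠ 0) (h3 : c3 ≠ 0) :
    Nonempty (G ℚ c1 c2 c3 ≃ₗ⁅ℚ⁆ G ℚ 1 1 1) ∨ Nonempty (G ℚ c1 c2 c3 ≃ₗ⁅ℚ⁆ G ℚ 3 1 1) := by
  obtain ⟨φ⟩ := normal_equiv (c1 := c1) h2 h3
  have hc : c1 * (c2 / c3) ^ 3 ≠ 0 := mul_ne_zero h1 (pow_ne_zero 3 (div_ne_zero h2 h3))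
  rcases SS_all _ hc with h | h
  · obtain ⟨ψ⟩ := HH_equiv (d := 1) h hc (one_mul _).symm
    exact Or.inl ⟨φ.trans ψ⟩
  · obtain ⟨ψ⟩ := HH_equiv (c := c1 * (c2 / c3) ^ 3) (d := 3) (h.mul (HH_sq (1 / 3)))
      (mul_ne_zero (mul_ne_zero (by norm_num) hc) (by norm_num)) (by ring)
    exact Or.inr ⟨φ.trans ψ⟩

lemma not_equiv : ¬ Nonempty (G ℚ 3 1 1 ≃ₗ⁅ℚ⁆ G ℚ 1 1 1) := by
  rintro ⟨φ⟩
  obtain ⟨s, g1, h1, g2, h2, g3, h3, hs, h⟩ := invariant (by norm_num) one_ne_zero one_ne_zero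
    one_ne_zero one_ne_zero one_ne_zero φ
  refine not_HH_three (HH.of_mul_sq hs ⟨g1 ^ 2 + h1 ^ 2, g2 ^ 2 - 17 * h2 ^ 2,
    g3 ^ 2 + 17 * h3 ^ 2, ⟨g1, h1, by ring⟩, ⟨g2, h2, by ring⟩, ⟨g3, h3, by ring⟩, ?_⟩)
  linear_combination h

/-- Coordinatewise inclusion of the rational algebra in the real one. -/
def cast (c1 c2 c3 : ℚ) (u : G ℚ c1 c2 c3) : G ℝ c1 c2 c3 := fun k => (u k : ℝ)

lemma cast_apply {c1 c2 c3 : ℚ} (u : G ℚ c1 c2 c3) (k : I) : cast c1 c2 c3 u k = (u k : ℝ) := rfl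

lemma cast_lie {c1 c2 c3 : ℚ} (u w : G ℚ c1 c2 c3) :
    cast c1 c2 c3 ⁅u, w⁆ = ⁅cast c1 c2 c3 u, cast c1 c2 c3 w⁆ := by
  ext k
  cases k <;> simp [cast_apply]

lemma lie_of_tmul {N L : Type} [LieRing N] [LieAlgebra ℚ N] [LieRing L] [LieAlgebra ℝ L]
    (l : ℝ ⊗[ℚ] N ≃ₗ[ℝ] L) (g : N → L) (hg : ∀ u w, g ⁅u, w⁆ = ⁅g u, g w⁆)
    (hl : ∀ (r : ℝ) (u : N), l (r ⊗ₜ u) = r • g u) : Nonempty (ℝ ⊗[ℚ] N ≃ₗ⁅ℝ⁆ L) := by
  refine ⟨{ l with map_lie' := fun {x y} => ?_ }⟩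
  show l ⁅x, y⁆ = ⁅l x, l y⁆
  induction x using TensorProduct.induction_on with
  | zero => simp
  | add x x' h h' => rw [add_lie, map_add, map_add, add_lie, h, h']
  | tmul r u =>
    induction y using TensorProduct.induction_on with
    | zero => simp
    | add y y' h h' => rw [lie_add, map_add, map_add, lie_add, h, h']
    | tmul s w =>
      rw [LieAlgebra.ExtendScalars.bracket_tmul, hl, hl, hl, hg, smul_lie, lie_smul,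
        smul_smul]

lemma baseChange (c1 c2 c3 : ℚ) :
    Nonempty (ℝ ⊗[ℚ] G ℚ c1 c2 c3 ≃ₗ⁅ℝ⁆ G ℝ c1 c2 c3) := by
  refine lie_of_tmul (TensorProduct.piScalarRight ℚ ℝ ℝ I) (cast c1 c2 c3) cast_lie fun r u => ?_
  have := TensorProduct.piScalarRightHom_tmul ℚ ℝ ℝ I r u
  refine ((TensorProduct.piScalarRight_apply ℚ ℝ ℝ I _).trans this).trans ?_
  ext k
  show u k • r = r * (u k : ℝ)
  rw [Rat.smul_def, mul_comm]

lemma is_form {c : ℚ} (hc : 0 < c) :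
    Nonempty (G ℝ 1 1 1 ≃ₗ⁅ℝ⁆ ℝ ⊗[ℚ] G ℚ c 1 1) := by
  obtain ⟨φ⟩ := baseChange c 1 1
  have hc' : (0 : ℝ) < c := by exact_mod_cast hc
  have hs : (√(c : ℝ) + 0) ^ 2 + 0 ^ 2 = c := by
    rw [add_zero, Real.sq_sqrt hc'.le]; ring
  obtain ⟨ψ⟩ := scale_equiv (F := ℝ) (c1 := c) (c2 := (1 : ℚ)) (c3 := (1 : ℚ)) (d1 := 1) (d2 := 1)
    (d3 := 1) 1 1 (√(c : ℝ)) 0 1 0 1 0 one_ne_zero one_ne_zero (by rw [hs]; exact hc'.ne')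
    (by norm_num) (by norm_num) (by rw [hs]; ring) (by norm_num) (by norm_num)
  exact ⟨(φ.trans ψ).symm⟩

end Pool.Agent.P.MP_b83182_al
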