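import Mathlib
import Pool.Agent.P.MP_b83182_al.Forms
import Pool.Agent.P.MP_b83182_al.Iso

/-!
Every rational form of `G ℝ 1 1 1` is some `G ℚ c1 c2 c3`.
-/

set_option linter.unusedSimpArgs false
set_option linter.unreachableTactic false
set_option linter.unusedTactic false

open scoped TensorProduct

namespace Pool.Agent.P.MP_b83182_al

lemma solveA {L N : Type} [LieRing L] [LieAlgebra ℝ L] [LieRing N] [LieAlgebra ℚ N]
    {e : L ≃ₗ⁅ℝ⁆ ℝ ⊗[ℚ] N} {S1 S2 Z : Submodule ℝ L} (r1 : IsRat e S1) (r2 : IsRat e S2)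
    (r3 : IsRat e Z) (p q x : N) (t n : ℚ) (X Y : L) (h1 : X - io e x ∈ S1) (h2 : Y ∈ S2)
    (h3 : ⁅io e p, X⁆ - ⁅io e q, Y⁆ ∈ Z) :
    ∃ x' y' : N, io e x' - io e x ∈ S1 ∧ io e y' ∈ S2 ∧
      ⁅io e p, io e x'⁆ - ⁅io e q, io e y'⁆ ∈ Z ∧
      (⁅io e p, Y⁆ - ⁅io e q, (t : ℝ) • Y - (n : ℝ) • X⁆ ∈ Z →
        ⁅io e p, io e y'⁆ - ⁅io e q, (t : ℝ) • io e y' - (n : ℝ) • io e x'⁆ ∈ Z) := by
  obtain ⟨π, hπ⟩ := exists_retraction
  refine ⟨pr e π X, pr e π Y, ?_, r2 π _ h2, ?_, fun h4 => ?_⟩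
  · have := r1 π _ h1
    rwa [map_sub, pr_io e hπ, map_sub] at this
  · have := r3 π _ h3
    rwa [map_sub, pr_lie, pr_lie, map_sub, io_lie, io_lie] at this
  · have := r3 π _ h4
    simpa only [map_sub, pr_lie, pr_rat_smul, io_lie, io_smul] using this

/-- Coordinates as linear functionals. -/
def coord (k : I) : G ℝ 1 1 1 →ₗ[ℝ] ℝ where
  toFun X := X k
  map_add' _ _ := rfl
  map_smul' _ _ := rfl

lemma line_eq {k : I} {W : G ℝ 1 1 1} (h : W ∈ Co (1 : ℝ) 1 1 [k]) : W = W k • E 1 1 1 k := by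
  ext j
  by_cases hj : j = k
  · simp [hj]
  · simp [hj, h j (by simpa using hj)]

variable {N : Type} [LieRing N] [LieAlgebra ℚ N] (e : G ℝ 1 1 1 ≃ₗ⁅ℝ⁆ ℝ ⊗[ℚ] N)

lemma ratCo {t : Tm} {J : List I}
    (h : (1 : ℝ) ≠ 0 → (1 : ℝ) ≠ 0 → (1 : ℝ) ≠ 0 → t.eval ℝ (G ℝ 1 1 1) = Co 1 1 1 J) :
    IsRat e (Co 1 1 1 J) := by
  rw [← h one_ne_zero one_ne_zero one_ne_zero]
  exact t.isRat e

lemma exists_rat {J : List I} (h : IsRat e (Co 1 1 1 J)) {j : I} (hj : j ∈ J) :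
    ∃ x : N, io e x ∈ Co (1 : ℝ) 1 1 J ∧ io e x j ≠ 0 :=
  h.exists_ne (coord j) (E_mem_Co hj) (by simp [coord])

lemma step1 (p q x : N) (hp : io e p ∈ Co (1 : ℝ) 1 1 [.p, .r, .f, .x1, .y1, .x2, .y2, .x3, .y3, .u1, .v1, .u2, .v2, .u3, .v3, .z1, .z2, .z3])
    (hq : io e q ∈ Co (1 : ℝ) 1 1 [.q, .a, .r, .f, .x1, .y1, .x2, .y2, .x3, .y3, .u1, .v1, .u2, .v2, .u3, .v3, .z1, .z2, .z3])
    (q0 : io e q .q ≠ 0) (hx : io e x ∈ Co (1 : ℝ) 1 1 [.r, .f, .x1, .y1, .u1, .v1, .u2, .v2, .u3, .v3, .z1, .z2, .z3]) :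
    ∃ x' y : N, io e x' ∈ Co (1 : ℝ) 1 1 [.r, .f, .x1, .y1, .u1, .v1, .u2, .v2, .u3, .v3, .z1, .z2, .z3] ∧
      io e y ∈ Co (1 : ℝ) 1 1 [.r, .f, .x1, .y1, .u1, .v1, .u2, .v2, .u3, .v3, .z1, .z2, .z3] ∧
      io e x' .x1 = io e x .x1 ∧ io e x' .y1 = io e x .y1 ∧
      io e y .x1 = io e p .p / io e q .q * (-(2) * io e x .y1) ∧
      io e y .y1 = io e p .p / io e q .q * (io e x .x1 + 2 * io e x .y1) ∧
      ⁅io e p, io e x'⁆ - ⁅io e q, io e y⁆ ∈ Co (1 : ℝ) 1 1 [.z1] ∧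
      (io e p .p = io e q .q → ⁅io e p, io e y⁆ -
        ⁅io e q, (2 : ℝ) • io e y - (2 : ℝ) • io e x'⁆ ∈ Co (1 : ℝ) 1 1 [.z1]) := by
  have hp' := hp
  have hq' := hq
  have hx' := hx
  simp [mem_Co, I.forall_iff] at hp' hq' hx'
  obtain ⟨x', y, h1, h2, h3, h4⟩ := solveA (ratCo e ev_N2) (ratCo e ev_W1) (ratCo e ev_z1) p q x
    (2) (2) (io e x .x1 • E 1 1 1 .x1 + io e x .y1 • E 1 1 1 .y1)
    ((io e p .p / io e q .q * (-(2) * io e x .y1)) • E 1 1 1 .x1 +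
      (io e p .p / io e q .q * (io e x .x1 + 2 * io e x .y1)) • E 1 1 1 .y1)
    (by simp [mem_Co, I.forall_iff, hx']) (by simp [mem_Co, I.forall_iff])
    (by
      simp [mem_Co, I.forall_iff, hp', hq']
      constructor <;> field_simp <;> ring1)
  have h1' := h1
  have h2' := h2
  simp [mem_Co, I.forall_iff, hx', sub_eq_zero] at h1' h2'
  have a1 := h3 .u1 (by decide)
  have a2 := h3 .v1 (by decide)
  simp only [br_p, br_q, br_a, br_r, br_f, br_x1, br_y1, br_x2, br_y2, br_x3, br_y3, br_u1, br_v1, br_u2, br_v2, br_u3, br_v3, br_z1, br_z2, br_z3, G.sub_apply, h1', h2', hp', hq'] at a1 a2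
  refine ⟨x', y, by simp [mem_Co, I.forall_iff, h1'], h2, by simp [h1'], by simp [h1'], ?_, ?_,
    h3, fun hpq => ?_⟩
  · field_simp
    linear_combination -a1
  · field_simp
    linear_combination -a2
  · have := h4 (by
      simp [mem_Co, I.forall_iff, hp', hq', hpq, div_self q0]
      try (constructor <;> ring1))
    simpa using this

lemma solveV1 {X Y : G ℝ 1 1 1} (hX : X ∈ Co (1 : ℝ) 1 1 [.r, .f, .x1, .y1, .u1, .v1, .u2, .v2, .u3, .v3, .z1, .z2, .z3])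
    (hY : Y ∈ Co (1 : ℝ) 1 1 [.r, .f, .x1, .y1, .u1, .v1, .u2, .v2, .u3, .v3, .z1, .z2, .z3])
    (hD : X .x1 * Y .y1 - X .y1 * Y .x1 ≠ 0) {W W' : G ℝ 1 1 1}
    (hW : W ∈ Co (1 : ℝ) 1 1 [.z1]) (hW' : W' ∈ Co (1 : ℝ) 1 1 [.z1]) :
    ∃ v ∈ Co (1 : ℝ) 1 1 [.x1, .y1], ⁅v, X⁆ = -W ∧ ⁅v, Y⁆ = -W' := by
  simp [mem_Co, I.forall_iff] at hX hY
  obtain ⟨δ, hδ⟩ := hD.isUnit.exists_right_inv
  refine ⟨((W .z1 * Y .x1 - W' .z1 * X .x1) * δ) • E 1 1 1 .x1 +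
    ((W .z1 * Y .y1 - W' .z1 * X .y1) * δ) • E 1 1 1 .y1,
    by simp [mem_Co, I.forall_iff], ?_, ?_⟩
  · rw [line_eq hW]
    ext k
    cases k <;> simp [hX]
    linear_combination (-W .z1) * hδ
  · rw [line_eq hW']
    ext k
    cases k <;> simp [hY]
    linear_combination (-W' .z1) * hδ

lemma step2 (p q x : N) (hp : io e p ∈ Co (1 : ℝ) 1 1 [.p, .r, .f, .x1, .y1, .x2, .y2, .x3, .y3, .u1, .v1, .u2, .v2, .u3, .v3, .z1, .z2, .z3])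
    (hq : io e q ∈ Co (1 : ℝ) 1 1 [.q, .a, .r, .f, .x1, .y1, .x2, .y2, .x3, .y3, .u1, .v1, .u2, .v2, .u3, .v3, .z1, .z2, .z3])
    (q0 : io e q .q ≠ 0) (hx : io e x ∈ Co (1 : ℝ) 1 1 [.r, .f, .x2, .y2, .u1, .v1, .u2, .v2, .u3, .v3, .z1, .z2, .z3]) :
    ∃ x' y : N, io e x' ∈ Co (1 : ℝ) 1 1 [.r, .f, .x2, .y2, .u1, .v1, .u2, .v2, .u3, .v3, .z1, .z2, .z3] ∧
      io e y ∈ Co (1 : ℝ) 1 1 [.r, .f, .x2, .y2, .u1, .v1, .u2, .v2, .u3, .v3, .z1, .z2, .z3] ∧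
      io e x' .x2 = io e x .x2 ∧ io e x' .y2 = io e x .y2 ∧
      io e y .x2 = io e p .p / io e q .q * (-(-17) * io e x .y2) ∧
      io e y .y2 = io e p .p / io e q .q * (io e x .x2 + 0 * io e x .y2) ∧
      ⁅io e p, io e x'⁆ - ⁅io e q, io e y⁆ ∈ Co (1 : ℝ) 1 1 [.z2] ∧
      (io e p .p = io e q .q → ⁅io e p, io e y⁆ -
        ⁅io e q, (0 : ℝ) • io e y - (-17 : ℝ) • io e x'⁆ ∈ Co (1 : ℝ) 1 1 [.z2]) := by
  have hp' := hp
  have hq' := hq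
  have hx' := hx
  simp [mem_Co, I.forall_iff] at hp' hq' hx'
  obtain ⟨x', y, h1, h2, h3, h4⟩ := solveA (ratCo e ev_N2) (ratCo e ev_W2) (ratCo e ev_z2) p q x
    (0) (-17) (io e x .x2 • E 1 1 1 .x2 + io e x .y2 • E 1 1 1 .y2)
    ((io e p .p / io e q .q * (-(-17) * io e x .y2)) • E 1 1 1 .x2 +
      (io e p .p / io e q .q * (io e x .x2 + 0 * io e x .y2)) • E 1 1 1 .y2)
    (by simp [mem_Co, I.forall_iff, hx']) (by simp [mem_Co, I.forall_iff])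
    (by
      simp [mem_Co, I.forall_iff, hp', hq']
      constructor <;> field_simp <;> ring1)
  have h1' := h1
  have h2' := h2
  simp [mem_Co, I.forall_iff, hx', sub_eq_zero] at h1' h2'
  have a1 := h3 .u2 (by decide)
  have a2 := h3 .v2 (by decide)
  simp only [br_p, br_q, br_a, br_r, br_f, br_x1, br_y1, br_x2, br_y2, br_x3, br_y3, br_u1, br_v1, br_u2, br_v2, br_u3, br_v3, br_z1, br_z2, br_z3, G.sub_apply, h1', h2', hp', hq'] at a1 a2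
  refine ⟨x', y, by simp [mem_Co, I.forall_iff, h1'], h2, by simp [h1'], by simp [h1'], ?_, ?_,
    h3, fun hpq => ?_⟩
  · field_simp
    linear_combination -a1
  · field_simp
    linear_combination -a2
  · have := h4 (by
      simp [mem_Co, I.forall_iff, hp', hq', hpq, div_self q0]
      try (constructor <;> ring1))
    simpa using this

lemma solveV2 {X Y : G ℝ 1 1 1} (hX : X ∈ Co (1 : ℝ) 1 1 [.r, .f, .x2, .y2, .u1, .v1, .u2, .v2, .u3, .v3, .z1, .z2, .z3])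
    (hY : Y ∈ Co (1 : ℝ) 1 1 [.r, .f, .x2, .y2, .u1, .v1, .u2, .v2, .u3, .v3, .z1, .z2, .z3])
    (hD : X .x2 * Y .y2 - X .y2 * Y .x2 ≠ 0) {W W' : G ℝ 1 1 1}
    (hW : W ∈ Co (1 : ℝ) 1 1 [.z2]) (hW' : W' ∈ Co (1 : ℝ) 1 1 [.z2]) :
    ∃ v ∈ Co (1 : ℝ) 1 1 [.x2, .y2], ⁅v, X⁆ = -W ∧ ⁅v, Y⁆ = -W' := by
  simp [mem_Co, I.forall_iff] at hX hY
  obtain ⟨δ, hδ⟩ := hD.isUnit.exists_right_inv
  refine ⟨((W .z2 * Y .x2 - W' .z2 * X .x2) * δ) • E 1 1 1 .x2 +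
    ((W .z2 * Y .y2 - W' .z2 * X .y2) * δ) • E 1 1 1 .y2,
    by simp [mem_Co, I.forall_iff], ?_, ?_⟩
  · rw [line_eq hW]
    ext k
    cases k <;> simp [hX]
    linear_combination (-W .z2) * hδ
  · rw [line_eq hW']
    ext k
    cases k <;> simp [hY]
    linear_combination (-W' .z2) * hδ

lemma step3 (p q x : N) (hp : io e p ∈ Co (1 : ℝ) 1 1 [.p, .r, .f, .x1, .y1, .x2, .y2, .x3, .y3, .u1, .v1, .u2, .v2, .u3, .v3, .z1, .z2, .z3])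
    (hq : io e q ∈ Co (1 : ℝ) 1 1 [.q, .a, .r, .f, .x1, .y1, .x2, .y2, .x3, .y3, .u1, .v1, .u2, .v2, .u3, .v3, .z1, .z2, .z3])
    (q0 : io e q .q ≠ 0) (hx : io e x ∈ Co (1 : ℝ) 1 1 [.r, .f, .x3, .y3, .u1, .v1, .u2, .v2, .u3, .v3, .z1, .z2, .z3]) :
    ∃ x' y : N, io e x' ∈ Co (1 : ℝ) 1 1 [.r, .f, .x3, .y3, .u1, .v1, .u2, .v2, .u3, .v3, .z1, .z2, .z3] ∧
      io e y ∈ Co (1 : ℝ) 1 1 [.r, .f, .x3, .y3, .u1, .v1, .u2, .v2, .u3, .v3, .z1, .z2, .z3] ∧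
      io e x' .x3 = io e x .x3 ∧ io e x' .y3 = io e x .y3 ∧
      io e y .x3 = io e p .p / io e q .q * (-(17) * io e x .y3) ∧
      io e y .y3 = io e p .p / io e q .q * (io e x .x3 + 0 * io e x .y3) ∧
      ⁅io e p, io e x'⁆ - ⁅io e q, io e y⁆ ∈ Co (1 : ℝ) 1 1 [.z3] ∧
      (io e p .p = io e q .q → ⁅io e p, io e y⁆ -
        ⁅io e q, (0 : ℝ) • io e y - (17 : ℝ) • io e x'⁆ ∈ Co (1 : ℝ) 1 1 [.z3]) := by
  have hp' := hp
  have hq' := hq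
  have hx' := hx
  simp [mem_Co, I.forall_iff] at hp' hq' hx'
  obtain ⟨x', y, h1, h2, h3, h4⟩ := solveA (ratCo e ev_N2) (ratCo e ev_W3) (ratCo e ev_z3) p q x
    (0) (17) (io e x .x3 • E 1 1 1 .x3 + io e x .y3 • E 1 1 1 .y3)
    ((io e p .p / io e q .q * (-(17) * io e x .y3)) • E 1 1 1 .x3 +
      (io e p .p / io e q .q * (io e x .x3 + 0 * io e x .y3)) • E 1 1 1 .y3)
    (by simp [mem_Co, I.forall_iff, hx']) (by simp [mem_Co, I.forall_iff])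
    (by
      simp [mem_Co, I.forall_iff, hp', hq']
      constructor <;> field_simp <;> ring1)
  have h1' := h1
  have h2' := h2
  simp [mem_Co, I.forall_iff, hx', sub_eq_zero] at h1' h2'
  have a1 := h3 .u3 (by decide)
  have a2 := h3 .v3 (by decide)
  simp only [br_p, br_q, br_a, br_r, br_f, br_x1, br_y1, br_x2, br_y2, br_x3, br_y3, br_u1, br_v1, br_u2, br_v2, br_u3, br_v3, br_z1, br_z2, br_z3, G.sub_apply, h1', h2', hp', hq'] at a1 a2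
  refine ⟨x', y, by simp [mem_Co, I.forall_iff, h1'], h2, by simp [h1'], by simp [h1'], ?_, ?_,
    h3, fun hpq => ?_⟩
  · field_simp
    linear_combination -a1
  · field_simp
    linear_combination -a2
  · have := h4 (by
      simp [mem_Co, I.forall_iff, hp', hq', hpq, div_self q0]
      try (constructor <;> ring1))
    simpa using this

lemma solveV3 {X Y : G ℝ 1 1 1} (hX : X ∈ Co (1 : ℝ) 1 1 [.r, .f, .x3, .y3, .u1, .v1, .u2, .v2, .u3, .v3, .z1, .z2, .z3])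
    (hY : Y ∈ Co (1 : ℝ) 1 1 [.r, .f, .x3, .y3, .u1, .v1, .u2, .v2, .u3, .v3, .z1, .z2, .z3])
    (hD : X .x3 * Y .y3 - X .y3 * Y .x3 ≠ 0) {W W' : G ℝ 1 1 1}
    (hW : W ∈ Co (1 : ℝ) 1 1 [.z3]) (hW' : W' ∈ Co (1 : ℝ) 1 1 [.z3]) :
    ∃ v ∈ Co (1 : ℝ) 1 1 [.x3, .y3], ⁅v, X⁆ = -W ∧ ⁅v, Y⁆ = -W' := by
  simp [mem_Co, I.forall_iff] at hX hY
  obtain ⟨δ, hδ⟩ := hD.isUnit.exists_right_inv
  refine ⟨((W .z3 * Y .x3 - W' .z3 * X .x3) * δ) • E 1 1 1 .x3 +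
    ((W .z3 * Y .y3 - W' .z3 * X .y3) * δ) • E 1 1 1 .y3,
    by simp [mem_Co, I.forall_iff], ?_, ?_⟩
  · rw [line_eq hW]
    ext k
    cases k <;> simp [hX]
    linear_combination (-W .z3) * hδ
  · rw [line_eq hW']
    ext k
    cases k <;> simp [hY]
    linear_combination (-W' .z3) * hδ

lemma comm12 {v X : G ℝ 1 1 1} (hv : v ∈ Co (1 : ℝ) 1 1 [.x1, .y1])
    (hX : X ∈ Co (1 : ℝ) 1 1 [.r, .f, .x2, .y2, .u1, .v1, .u2, .v2, .u3, .v3, .z1, .z2, .z3]) : ⁅v, X⁆ = 0 := by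
  simp [mem_Co, I.forall_iff] at hv hX
  ext k
  cases k <;> simp [hv, hX]

lemma comm13 {v X : G ℝ 1 1 1} (hv : v ∈ Co (1 : ℝ) 1 1 [.x1, .y1])
    (hX : X ∈ Co (1 : ℝ) 1 1 [.r, .f, .x3, .y3, .u1, .v1, .u2, .v2, .u3, .v3, .z1, .z2, .z3]) : ⁅v, X⁆ = 0 := by
  simp [mem_Co, I.forall_iff] at hv hX
  ext k
  cases k <;> simp [hv, hX]

lemma comm21 {v X : G ℝ 1 1 1} (hv : v ∈ Co (1 : ℝ) 1 1 [.x2, .y2])
    (hX : X ∈ Co (1 : ℝ) 1 1 [.r, .f, .x1, .y1, .u1, .v1, .u2, .v2, .u3, .v3, .z1, .z2, .z3]) : ⁅v, X⁆ = 0 := by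
  simp [mem_Co, I.forall_iff] at hv hX
  ext k
  cases k <;> simp [hv, hX]

lemma comm23 {v X : G ℝ 1 1 1} (hv : v ∈ Co (1 : ℝ) 1 1 [.x2, .y2])
    (hX : X ∈ Co (1 : ℝ) 1 1 [.r, .f, .x3, .y3, .u1, .v1, .u2, .v2, .u3, .v3, .z1, .z2, .z3]) : ⁅v, X⁆ = 0 := by
  simp [mem_Co, I.forall_iff] at hv hX
  ext k
  cases k <;> simp [hv, hX]

lemma comm31 {v X : G ℝ 1 1 1} (hv : v ∈ Co (1 : ℝ) 1 1 [.x3, .y3])
    (hX : X ∈ Co (1 : ℝ) 1 1 [.r, .f, .x1, .y1, .u1, .v1, .u2, .v2, .u3, .v3, .z1, .z2, .z3]) : ⁅v, X⁆ = 0 := by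
  simp [mem_Co, I.forall_iff] at hv hX
  ext k
  cases k <;> simp [hv, hX]

lemma comm32 {v X : G ℝ 1 1 1} (hv : v ∈ Co (1 : ℝ) 1 1 [.x3, .y3])
    (hX : X ∈ Co (1 : ℝ) 1 1 [.r, .f, .x2, .y2, .u1, .v1, .u2, .v2, .u3, .v3, .z1, .z2, .z3]) : ⁅v, X⁆ = 0 := by
  simp [mem_Co, I.forall_iff] at hv hX
  ext k
  cases k <;> simp [hv, hX]

lemma tau_rat (p q x : N) (hp : io e p ∈ Co (1 : ℝ) 1 1 [.p, .r, .f, .x1, .y1, .x2, .y2, .x3, .y3, .u1, .v1, .u2, .v2, .u3, .v3, .z1, .z2, .z3])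
    (hq : io e q ∈ Co (1 : ℝ) 1 1 [.q, .a, .r, .f, .x1, .y1, .x2, .y2, .x3, .y3, .u1, .v1, .u2, .v2, .u3, .v3, .z1, .z2, .z3])
    (p0 : io e p .p ≠ 0) (q0 : io e q .q ≠ 0) (hx : io e x ∈ Co (1 : ℝ) 1 1 [.r, .f, .x1, .y1, .u1, .v1, .u2, .v2, .u3, .v3, .z1, .z2, .z3])
    (x0 : io e x .x1 ≠ 0) : ∃ s : ℚ, (s : ℝ) = io e p .p / io e q .q := by
  obtain ⟨-, y, -, hy, -, -, y1, y2, -⟩ := step1 e p q x hp hq q0 hx
  obtain ⟨-, w, -, hw, -, -, w1, w2, -⟩ := step1 e p q y hp hq q0 hy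
  have τ0 : io e p .p / io e q .q ≠ 0 := div_ne_zero p0 q0
  generalize io e p .p / io e q .q = τ at *
  obtain ⟨π, hπ⟩ := exists_retraction
  have h1 : io e w - (2 * τ) • io e y + (2 * τ ^ 2) • io e x ∈ Co (1 : ℝ) 1 1 [.r, .f, .u1, .v1, .u2, .v2, .u3, .v3, .z1, .z2, .z3] := by
    simp [mem_Co, I.forall_iff] at hx hy hw
    simp [mem_Co, I.forall_iff, hx, hy, hw, w1, w2, y1, y2]
    constructor <;> ring1
  have h2 := ratCo e ev_N2 π _ h1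
  rw [map_add, map_sub, pr_io e hπ, pr_smul_io, pr_smul_io, map_add, map_sub, io_smul,
    io_smul] at h2
  have a1 := h1 .x1 (by decide)
  have a2 := h1 .y1 (by decide)
  have b1 := h2 .x1 (by decide)
  have b2 := h2 .y1 (by decide)
  simp only [G.add_apply, G.sub_apply, G.smul_apply] at a1 a2 b1 b2
  have hD : io e x .x1 * io e y .y1 - io e x .y1 * io e y .x1 ≠ 0 := by
    have : io e x .x1 * io e y .y1 - io e x .y1 * io e y .x1 =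
        τ * ((io e x .x1 + io e x .y1) ^ 2 + io e x .y1 ^ 2) := by rw [y1, y2]; ring
    rw [this]
    refine mul_ne_zero τ0 fun h => x0 ?_
    have c1 : io e x .y1 = 0 := by nlinarith [sq_nonneg (io e x .x1 + io e x .y1)]
    rw [c1] at h
    simpa using h
  have := (solve2 (s := (π (2 * τ ^ 2) : ℝ) - 2 * τ ^ 2) (t := 2 * τ - (π (2 * τ) : ℝ)) hD
    (by linear_combination b1 - a1) (by linear_combination b2 - a2)).2
  refine ⟨π (2 * τ) / 2, ?_⟩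
  push_cast
  linarith

lemma exists_good : ∃ (c1 c2 c3 : ℚ) (p q a x1 y1 x2 y2 x3 y3 : N), c1 ≠ 0 ∧ c2 ≠ 0 ∧ c3 ≠ 0 ∧
    Good (c1 : ℝ) c2 c3 (io e p) (io e q) (io e a) (io e x1) (io e y1) (io e x2) (io e y2)
      (io e x3) (io e y3) := by
  obtain ⟨q, hq, q0⟩ := exists_rat e (ratCo e ev_Q) (j := .q) (by decide)
  obtain ⟨p0, hp0, p00⟩ := exists_rat e (ratCo e ev_P) (j := .p) (by decide)
  obtain ⟨a, ha, a0⟩ := exists_rat e (ratCo e ev_A) (j := .a) (by decide)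
  obtain ⟨w1, hw1, w10⟩ := exists_rat e (ratCo e ev_W1) (j := .x1) (by decide)
  obtain ⟨w2, hw2, w20⟩ := exists_rat e (ratCo e ev_W2) (j := .x2) (by decide)
  obtain ⟨w3, hw3, w30⟩ := exists_rat e (ratCo e ev_W3) (j := .x3) (by decide)
  obtain ⟨τ, hτ⟩ := tau_rat e p0 q w1 hp0 hq p00 q0 hw1 w10
  obtain ⟨p1, hp1, pq1⟩ : ∃ p1 : N, io e p1 ∈ Co (1 : ℝ) 1 1 [.p, .r, .f, .x1, .y1, .x2, .y2, .x3, .y3, .u1, .v1, .u2, .v2, .u3, .v3, .z1, .z2, .z3] ∧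
      io e p1 .p = io e q .q := by
    refine ⟨τ⁻¹ • p0, ?_, ?_⟩
    · rw [io_smul]; exact Submodule.smul_mem _ _ hp0
    · rw [io_smul, G.smul_apply, Rat.cast_inv, hτ]
      field_simp
  obtain ⟨x1, y1, hx1, hy1, a1, a2, a3, a4, E11, E12⟩ := step1 e p1 q w1 hp1 hq q0 hw1
  obtain ⟨x2, y2, hx2, hy2, b1, b2, b3, b4, E21, E22⟩ := step2 e p1 q w2 hp1 hq q0 hw2
  obtain ⟨x3, y3, hx3, hy3, d1, d2, d3, d4, E31, E32⟩ := step3 e p1 q w3 hp1 hq q0 hw3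
  replace E12 := E12 pq1
  replace E22 := E22 pq1
  replace E32 := E32 pq1
  rw [pq1, div_self q0, one_mul] at a3 a4 b3 b4 d3 d4
  have n1 : io e x1 .x1 * io e y1 .y1 - io e x1 .y1 * io e y1 .x1 ≠ 0 := by
    rw [a1, a2, a3, a4]
    intro h
    have c1 : io e w1 .y1 = 0 := by nlinarith [sq_nonneg (io e w1 .x1 + io e w1 .y1)]
    rw [c1] at h
    exact w10 (by simpa using h)
  have n3 : io e x3 .x3 * io e y3 .y3 - io e x3 .y3 * io e y3 .x3 ≠ 0 := by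
    rw [d1, d2, d3, d4]
    intro h
    exact w30 (by nlinarith [sq_nonneg (io e w3 .x3), sq_nonneg (io e w3 .y3)])
  have n2 : io e x2 .x2 * io e y2 .y2 - io e x2 .y2 * io e y2 .x2 ≠ 0 := by
    rw [b1, b2, b3, b4]
    intro h
    obtain ⟨π, hπ⟩ := exists_retraction
    obtain ⟨l, hl⟩ : ∃ l : ℝ, l * io e w2 .x2 = 17 * io e w2 .y2 :=
      ⟨17 * io e w2 .y2 / io e w2 .x2, div_mul_cancel₀ _ w20⟩
    have hl2 : l * io e w2 .y2 = io e w2 .x2 :=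
      mul_left_cancel₀ w20 (by linear_combination io e w2 .y2 * hl - h)
    have h1 : io e y2 - l • io e w2 ∈ Co (1 : ℝ) 1 1 [.r, .f, .u1, .v1, .u2, .v2, .u3, .v3, .z1, .z2, .z3] := by
      simp [mem_Co, I.forall_iff] at hw2 hy2
      simp [mem_Co, I.forall_iff, hw2, hy2, b3, b4, hl, hl2]
    have h2 := ratCo e ev_N2 π _ h1
    rw [map_sub, pr_io e hπ, pr_smul_io, map_sub, io_smul] at h2
    have k1 := h1 .x2 (by decide)
    have k2 := h2 .x2 (by decide)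
    simp only [G.sub_apply, G.smul_apply] at k1 k2
    have k3 : (π l : ℝ) = l := mul_right_cancel₀ w20 (by linear_combination k1 - k2)
    have k4 : l * l = 17 := mul_right_cancel₀ w20 (by linear_combination l * hl + 17 * hl2)
    have k5 : ((17 : ℕ) : ℚ) = π l * π l := by
      have : (((17 : ℕ) : ℚ) : ℝ) = ((π l * π l : ℚ) : ℝ) := by
        push_cast
        rw [k3, k4]
      exact_mod_cast this
    exact (by norm_num : Nat.Prime 17).prime.not_isSquare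
      (Rat.isSquare_natCast_iff.1 ⟨_, k5⟩)
  obtain ⟨v1, hv1, f11, f12⟩ := solveV1 hx1 hy1 n1 E11 E12
  obtain ⟨v2, hv2, f21, f22⟩ := solveV2 hx2 hy2 n2 E21 E22
  obtain ⟨v3, hv3, f31, f32⟩ := solveV3 hx3 hy3 n3 E31 E32
  obtain ⟨π, hπ⟩ := exists_retraction
  have key : ∀ x m : N, ⁅io e p1 + (v1 + v2 + v3), io e x⁆ = ⁅io e q, io e m⁆ →
      ⁅io e (pr e π (io e p1 + (v1 + v2 + v3))), io e x⁆ = ⁅io e q, io e m⁆ := by
    intro x m h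
    rw [← io_lie, ← pr_lie', h, ← io_lie, pr_io e hπ]
  have hp' : io e (pr e π (io e p1 + (v1 + v2 + v3))) - io e p1 ∈ Co (1 : ℝ) 1 1 [.r, .f, .x1, .y1, .x2, .y2, .x3, .y3, .u1, .v1, .u2, .v2, .u3, .v3, .z1, .z2, .z3] := by
    have : v1 + v2 + v3 ∈ Co (1 : ℝ) 1 1 [.r, .f, .x1, .y1, .x2, .y2, .x3, .y3, .u1, .v1, .u2, .v2, .u3, .v3, .z1, .z2, .z3] := by
      simp [mem_Co, I.forall_iff] at hv1 hv2 hv3
      simp [mem_Co, I.forall_iff, hv1, hv2, hv3]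
    have := ratCo e ev_Z2 π _ this
    rwa [map_add, pr_io e hπ, map_add, add_sub_cancel_left]
  have r11 := key x1 y1 (by
    simp only [add_lie, f11, comm21 hv2 hx1, comm31 hv3 hx1]; abel)
  have r12 := key y1 ((2 : ℚ) • y1 - (2 : ℚ) • x1) (by
    simp only [add_lie, f12, comm21 hv2 hy1, comm31 hv3 hy1, map_sub, io_smul, Rat.cast_ofNat]
    abel)
  have r21 := key x2 y2 (by
    simp only [add_lie, f21, comm12 hv1 hx2, comm32 hv3 hx2]; abel)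
  have r22 := key y2 ((17 : ℚ) • x2) (by
    simp only [add_lie, f22, comm12 hv1 hy2, comm32 hv3 hy2, io_smul, Rat.cast_ofNat, zero_smul,
      zero_sub, neg_smul, neg_neg]
    abel)
  have r31 := key x3 y3 (by
    simp only [add_lie, f31, comm13 hv1 hx3, comm23 hv2 hx3]; abel)
  have r32 := key y3 ((-17 : ℚ) • x3) (by
    simp only [add_lie, f32, comm13 hv1 hy3, comm23 hv2 hy3, io_smul, Rat.cast_ofNat, zero_smul,
      zero_sub, neg_smul, neg_neg, Rat.cast_neg, map_neg]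
    abel)
  generalize pr e π (io e p1 + (v1 + v2 + v3)) = p at *
  simp only [map_sub, io_smul, Rat.cast_ofNat, Rat.cast_neg] at r12 r22 r32
  have hp1' := hp1
  simp [mem_Co, I.forall_iff] at hp1'
  simp [mem_Co, I.forall_iff, sub_eq_zero, hp1', pq1] at hp'
  have hq' := hq
  have ha' := ha
  have hx1' := hx1
  have hy1' := hy1
  have hx2' := hx2
  have hy2' := hy2
  have hx3' := hx3
  have hy3' := hy3
  simp [mem_Co, I.forall_iff] at hq' ha' hx1' hy1' hx2' hy2' hx3' hy3'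
  obtain ⟨δ, hδ⟩ := q0.isUnit.exists_right_inv
  obtain ⟨ε, hε⟩ := a0.isUnit.exists_right_inv
  have δ0 : δ ≠ 0 := right_ne_zero_of_mul_eq_one hδ
  have ε0 : ε ≠ 0 := right_ne_zero_of_mul_eq_one hε
  have e1 : io e ⁅x1, y1⁆ = ((io e x1 .x1 * io e y1 .y1 - io e x1 .y1 * io e y1 .x1) * δ ^ 3) •
      io e ⁅p, ⁅p, q⁆⁆ := by
    simp only [io_lie]
    ext k
    cases k <;> simp [hp', hq', hx1', hy1']
    linear_combination (-(io e x1 .x1 * io e y1 .y1 - io e x1 .y1 * io e y1 .x1)) *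
      ((io e q .q * δ) ^ 2 + io e q .q * δ + 1) * hδ
  have e2 : io e ⁅x2, y2⁆ = ((io e x2 .x2 * io e y2 .y2 - io e x2 .y2 * io e y2 .x2) * (δ * ε)) •
      io e ⁅p, a⁆ := by
    simp only [io_lie]
    ext k
    cases k <;> simp [hp', ha', hx2', hy2']
    linear_combination (-(io e x2 .x2 * io e y2 .y2 - io e x2 .y2 * io e y2 .x2)) *
      (io e a .a * ε * hδ + hε)
  have e3 : io e ⁅x3, y3⁆ = ((io e x3 .x3 * io e y3 .y3 - io e x3 .y3 * io e y3 .x3) *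
      (δ ^ 2 * ε)) • io e ⁅q, ⁅q, a⁆⁆ := by
    simp only [io_lie]
    ext k
    cases k <;> simp [hq', ha', hx3', hy3']
    linear_combination (-(io e x3 .x3 * io e y3 .y3 - io e x3 .y3 * io e y3 .x3)) *
      (io e a .a * ε * (io e q .q * δ + 1) * hδ + hε)
  obtain ⟨c1, hc1⟩ := rat_of_smul e1 (fun h => by
    have := congrFun h .z1
    simp [io_lie, hp', hq', q0] at this)
  obtain ⟨c2, hc2⟩ := rat_of_smul e2 (fun h => by
    have := congrFun h .z2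
    simp [io_lie, hp', ha', q0, a0] at this)
  obtain ⟨c3, hc3⟩ := rat_of_smul e3 (fun h => by
    have := congrFun h .z3
    simp [io_lie, hq', ha', q0, a0] at this)
  rw [← hc1] at e1
  rw [← hc2] at e2
  rw [← hc3] at e3
  simp only [io_lie] at e1 e2 e3
  refine ⟨c1, c2, c3, p, q, a, x1, y1, x2, y2, x3, y3, ?_, ?_, ?_,
    ⟨by simp [mem_Co, I.forall_iff, hp'], hq, ha, hx1, hy1, hx2, hy2, hx3, hy3, hp'.1, q0, a0,
      n1, n2, n3, r11, r12, r21, r22, r31, r32, e1, e2, e3⟩⟩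
  · rintro rfl
    exact mul_ne_zero n1 (pow_ne_zero 3 δ0) (by rw [← hc1]; simp)
  · rintro rfl
    exact mul_ne_zero n2 (mul_ne_zero δ0 ε0) (by rw [← hc2]; simp)
  · rintro rfl
    exact mul_ne_zero n3 (mul_ne_zero (pow_ne_zero 2 δ0) ε0) (by rw [← hc3]; simp)

end Pool.Agent.P.MP_b83182_al
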