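import Mathlib
import Pool.Agent.P.MP_b83182_al.Descent

/-!
Classification of the rational forms of `G ℝ 1 1 1`.
-/

open scoped TensorProduct

namespace Pool.Agent.P.MP_b83182_al

theorem descent {N : Type} [LieRing N] [LieAlgebra ℚ N] (e : G ℝ 1 1 1 ≃ₗ⁅ℝ⁆ ℝ ⊗[ℚ] N) :
    ∃ c1 c2 c3 : ℚ, c1 ≠ 0 ∧ c2 ≠ 0 ∧ c3 ≠ 0 ∧
    Nonempty (G ℚ c1 c2 c3 ≃ₗ⁅ℚ⁆ N) := by
  obtain ⟨c1, c2, c3, p, q, a, x1, y1, x2, y2, x3, y3, h1, h2, h3, hG⟩ := exists_good e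
  obtain ⟨Ψ, hΨ⟩ := hG.exists_equiv
  have himg : ∀ i, io e (img p q a x1 y1 x2 y2 x3 y3 i) =
      img (io e p) (io e q) (io e a) (io e x1) (io e y1) (io e x2) (io e y2) (io e x3)
        (io e y3) i := by
    intro i
    cases i <;> simp only [img, io_lie]
  have hΦ : ∀ u : G ℚ c1 c2 c3, io e (∑ i, u i • img p q a x1 y1 x2 y2 x3 y3 i) =
      Ψ (cast c1 c2 c3 u) := by
    intro u
    rw [hΨ, map_sum]
    simp only [io_smul, himg, cast_apply]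
  let φ : G ℚ c1 c2 c3 →ₗ⁅ℚ⁆ N :=
    { toFun := fun u => ∑ i, u i • img p q a x1 y1 x2 y2 x3 y3 i
      map_add' := fun u w => by simp [add_smul, Finset.sum_add_distrib]
      map_smul' := fun s u => by simp [mul_smul, Finset.smul_sum]
      map_lie' := fun {u w} => by
        apply io_injective e
        rw [io_lie, hΦ, hΦ, hΦ, cast_lie, LieEquiv.map_lie] }
  have hinj : Function.Injective φ := by
    intro u w huw
    have : Ψ (cast c1 c2 c3 u) = Ψ (cast c1 c2 c3 w) := by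
      rw [← hΦ, ← hΦ]
      exact congrArg (io e) huw
    have := Ψ.injective this
    ext k
    have hk := congrFun this k
    rw [cast_apply, cast_apply] at hk
    exact_mod_cast hk
  have hsur : Function.Surjective φ := by
    intro x
    obtain ⟨π, hπ⟩ := exists_retraction
    obtain ⟨u, hu⟩ := Ψ.surjective (io e x)
    refine ⟨fun k => π (u k), ?_⟩
    have hu' : ∑ i, u i • io e (img p q a x1 y1 x2 y2 x3 y3 i) = io e x := by
      rw [← hu]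
      simp only [himg]
      exact (hΨ u).symm
    rw [← pr_io e hπ x, ← hu', map_sum]
    simp only [pr_smul_io]
    rfl
  exact ⟨c1, c2, c3, h1, h2, h3, ⟨LieEquiv.ofBijective φ ⟨hinj, hsur⟩⟩⟩

theorem classification {N : Type} [LieRing N] [LieAlgebra ℚ N]
    (e : G ℝ 1 1 1 ≃ₗ⁅ℝ⁆ ℝ ⊗[ℚ] N) :
    Nonempty (N ≃ₗ⁅ℚ⁆ G ℚ 1 1 1) ∨ Nonempty (N ≃ₗ⁅ℚ⁆ G ℚ 3 1 1) := by
  obtain ⟨c1, c2, c3, h1, h2, h3, ⟨φ⟩⟩ := descent e
  rcases two_classes h1 h2 h3 with ⟨⟨ψ⟩⟩ | ⟨⟨ψ⟩⟩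
  · exact Or.inl ⟨φ.symm.trans ψ⟩
  · exact Or.inr ⟨φ.symm.trans ψ⟩

/-- The two parameters. -/
def par : Fin 2 → ℚ
  | 0 => 1
  | 1 => 3

end Pool.Agent.P.MP_b83182_al
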