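import Mathlib
import Pool.Agent.P.MP_b83182_al.Final

/-!
Rational forms as rational subalgebras, up to automorphisms of the real Lie algebra.
-/

open scoped TensorProduct

namespace Pool.Agent.P.MP_b83182_al

section

variable {L : Type} [LieRing L] [LieAlgebra ℝ L] [LieAlgebra ℚ L] [IsScalarTower ℚ ℝ L]
  [FiniteDimensional ℝ L]

lemma sub_equiv {N : Type} [LieRing N] [LieAlgebra ℚ N] [FiniteDimensional ℚ N]
    (g : N →ₗ⁅ℚ⁆ L) (hs : Submodule.span ℝ (Set.range g) = ⊤)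
    (hd : Module.finrank ℚ N = Module.finrank ℝ L) :
    ∃ l : ℝ ⊗[ℚ] N ≃ₗ⁅ℝ⁆ L, ∀ (r : ℝ) (u : N), l (r ⊗ₜ u) = r • g u := by
  let l0 : ℝ ⊗[ℚ] N →ₗ[ℝ] L := (g : N →ₗ[ℚ] L).liftBaseChange ℝ
  have h0 : ∀ (r : ℝ) (u : N), l0 (r ⊗ₜ u) = r • g u := fun r u => by
    simp [l0]
  have hsur : Function.Surjective l0 := by
    rw [← LinearMap.range_eq_top, eq_top_iff, ← hs]
    refine Submodule.span_le.2 ?_
    rintro _ ⟨u, rfl⟩
    exact ⟨1 ⊗ₜ u, by rw [h0, one_smul]⟩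
  have hdim : Module.finrank ℝ (ℝ ⊗[ℚ] N) = Module.finrank ℝ L := by
    rw [Module.finrank_baseChange, hd]
  have hinj : Function.Injective l0 :=
    (LinearMap.injective_iff_surjective_of_finrank_eq_finrank hdim).2 hsur
  let l : ℝ ⊗[ℚ] N ≃ₗ[ℝ] L := LinearEquiv.ofBijective l0 ⟨hinj, hsur⟩
  have hl : ∀ (r : ℝ) (u : N), l (r ⊗ₜ u) = r • g u := h0
  refine ⟨{ l with map_lie' := fun {x y} => ?_ }, hl⟩
  show l ⁅x, y⁆ = ⁅l x, l y⁆
  induction x using TensorProduct.induction_on with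
  | zero => simp
  | add x x' h h' => rw [add_lie, map_add, map_add, add_lie, h, h']
  | tmul r u =>
    induction y using TensorProduct.induction_on with
    | zero => simp
    | add y y' h h' => rw [lie_add, map_add, map_add, lie_add, h, h']
    | tmul s w =>
      rw [LieAlgebra.ExtendScalars.bracket_tmul, hl, hl, hl, LieHom.map_lie, smul_lie, lie_smul,
        smul_smul]

lemma sub_aut {N N' : LieSubalgebra ℚ L} [FiniteDimensional ℚ N]
    (hs : Submodule.span ℝ (N : Set L) = ⊤) (hs' : Submodule.span ℝ (N' : Set L) = ⊤)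
    (hd : Module.finrank ℚ N = Module.finrank ℝ L) (ψ : N ≃ₗ⁅ℚ⁆ N') :
    ∃ φ : L ≃ₗ⁅ℝ⁆ L, φ '' (N : Set L) = N' := by
  have r1 : Set.range N.incl = (N : Set L) := by
    ext x
    constructor
    · rintro ⟨u, rfl⟩
      exact u.2
    · intro hx
      exact ⟨⟨x, hx⟩, rfl⟩
  have r2 : Set.range (N'.incl.comp (ψ : N →ₗ⁅ℚ⁆ N')) = (N' : Set L) := by
    ext x
    constructor
    · rintro ⟨u, rfl⟩
      exact (ψ u).2
    · intro hx
      refine ⟨ψ.symm ⟨x, hx⟩, ?_⟩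
      show ((ψ (ψ.symm ⟨x, hx⟩) : N') : L) = x
      rw [LieEquiv.apply_symm_apply]
  obtain ⟨l, hl⟩ := sub_equiv N.incl (by rw [r1, hs]) hd
  obtain ⟨l', hl'⟩ := sub_equiv (N'.incl.comp (ψ : N →ₗ⁅ℚ⁆ N')) (by rw [r2, hs']) hd
  refine ⟨l.symm.trans l', ?_⟩
  have key : ∀ u : N, (l.symm.trans l') (N.incl u) = N'.incl.comp (ψ : N →ₗ⁅ℚ⁆ N') u := by
    intro u
    have h1 := hl 1 u
    have h2 := hl' 1 u
    rw [one_smul] at h1 h2
    rw [LieEquiv.trans_apply, ← h1, LieEquiv.symm_apply_apply, h2]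
  rw [← r1, ← r2, ← Set.range_comp]
  exact congrArg Set.range (funext key)

omit [FiniteDimensional ℝ L] in
lemma sub_exists {N : Type} [LieRing N] [LieAlgebra ℚ N] (e : L ≃ₗ⁅ℝ⁆ ℝ ⊗[ℚ] N) :
    ∃ M : LieSubalgebra ℚ L, Submodule.span ℝ (M : Set L) = ⊤ ∧ Nonempty (N ≃ₗ⁅ℚ⁆ M) := by
  let g : N →ₗ⁅ℚ⁆ L :=
    { toFun := io e
      map_add' := fun x y => map_add _ x y
      map_smul' := fun s x => by
        rw [io_smul, RingHom.id_apply, ← algebraMap_smul ℝ s (io e x)]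
        rfl
      map_lie' := fun {x y} => io_lie e x y }
  refine ⟨g.range, ?_, ⟨g.equivRangeOfInjective (io_injective e)⟩⟩
  rw [eq_top_iff]
  intro y _
  induction y using form_induction e with
  | h0 => exact Submodule.zero_mem _
  | h1 r x => exact Submodule.smul_mem _ _ (Submodule.subset_span ⟨x, rfl⟩)
  | h2 x z hx hz => exact Submodule.add_mem _ (hx trivial) (hz trivial)

end

noncomputable instance ratModule : Module ℚ (G ℝ 1 1 1) := inferInstanceAs (Module ℚ (I → ℝ))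

instance ratTower : IsScalarTower ℚ ℝ (G ℝ 1 1 1) := inferInstanceAs (IsScalarTower ℚ ℝ (I → ℝ))

noncomputable instance ratLie : LieAlgebra ℚ (G ℝ 1 1 1) where
  lie_smul s X Y := by
    rw [← algebraMap_smul ℝ s Y, lie_smul, algebraMap_smul]

lemma finrank_G {F : Type} [Field F] (c1 c2 c3 : F) : Module.finrank F (G F c1 c2 c3) = 20 := by
  have : Module.finrank F (I → F) = 20 := by
    rw [Module.finrank_fintype_fun_eq_card]
    rfl
  exact this

end Pool.Agent.P.MP_b83182_al
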